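import Pool.Agent.H121.ME.Fm

/-! The decoupling inequality near the upper band edge. -/

set_option autoImplicit false

open scoped BigOperators InnerProductSpace Topology ENNReal
open Filter MeasureTheory

namespace Pool.Agent.H121.ME

theorem W_fin (μ : Measure ℝ) [IsProbabilityMeasure μ] (s : ℝ) (hs : 0 < s) (β : ℂ)
    (hβ : β.im ≠ 0) : ∫⁻ v : ℝ, ENNReal.ofReal (‖(v : ℂ) - β‖ ^ (-s)) ∂μ ≠ ∞ := by
  have h0 : 0 < |β.im| := abs_pos.2 hβ
  refine ne_top_of_le_ne_top (b := ENNReal.ofReal (|β.im| ^ (-s))) ENNReal.ofReal_ne_top ?_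
  calc ∫⁻ v : ℝ, ENNReal.ofReal (‖(v : ℂ) - β‖ ^ (-s)) ∂μ ≤
        ∫⁻ _ : ℝ, ENNReal.ofReal (|β.im| ^ (-s)) ∂μ := by
        refine lintegral_mono fun v => ENNReal.ofReal_le_ofReal ?_
        refine Real.rpow_le_rpow_of_nonpos h0 ?_ (by linarith)
        have := Complex.abs_im_le_norm ((v : ℂ) - β)
        simpa using this
    _ = _ := by rw [lintegral_const, measure_univ, mul_one]

theorem pt_top (s θ lam a : ℝ) (hs : 0 < s) (hs1 : s < 1) (hlam : 0 < lam)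
    (ha : 0 ≤ a) (z : ℂ) (hz : a + lam * θ ≤ z.re) (v : ℝ) (hv : |v| ≤ 1) :
    (a / lam) ^ s ≤ ‖(v : ℂ) - z / (lam : ℂ)‖ ^ s + (Set.Ioi θ).indicator (fun _ => (1 - θ) ^ s) v := by
  have h1 : a / lam + θ - v ≤ ‖(v : ℂ) - z / (lam : ℂ)‖ := by
    have h2 := Complex.abs_re_le_norm ((v : ℂ) - z / (lam : ℂ))
    have h3 : ((v : ℂ) - z / (lam : ℂ)).re = v - z.re / lam := by
      rw [Complex.sub_re, Complex.ofReal_re, Complex.div_ofReal_re]
    rw [h3] at h2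
    have h4 : a / lam + θ ≤ z.re / lam := by
      rw [div_add' _ _ _ hlam.ne', div_le_div_iff_of_pos_right hlam]
      linarith
    have h5 := neg_abs_le (v - z.re / lam)
    linarith
  have h0 : 0 ≤ a / lam := div_nonneg ha hlam.le
  by_cases hvθ : v ∈ Set.Ioi θ
  · rw [Set.indicator_of_mem hvθ]
    have hvθ' : θ < v := hvθ
    have hv1 : v ≤ 1 := (le_abs_self v).trans hv
    have h2 : a / lam ≤ ‖(v : ℂ) - z / (lam : ℂ)‖ + (1 - θ) := by linarith
    refine (Real.rpow_le_rpow h0 h2 hs.le).trans ?_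
    exact Real.rpow_add_le_add_rpow (norm_nonneg _) (by linarith) hs.le hs1.le
  · rw [Set.indicator_of_notMem hvθ, add_zero]
    have hvθ' : v ≤ θ := not_lt.1 hvθ
    exact Real.rpow_le_rpow h0 (by linarith) hs.le

theorem dec_top (μ : Measure ℝ) [IsProbabilityMeasure μ] (hμ : ∀ᵐ v ∂μ, |v| ≤ 1)
    (s θ κ lam a : ℝ) (hs : 0 < s) (hs1 : s < 1) (hθ : θ ≤ 1) (hκ : 0 ≤ κ) (hlam : 0 < lam)
    (ha : 0 ≤ a)
    (htail : ∀ β : ℂ, β.im ≠ 0 → ∫⁻ v in Set.Ioi θ, ENNReal.ofReal (‖(v : ℂ) - β‖ ^ (-s)) ∂μ ≤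
      ENNReal.ofReal κ * ∫⁻ v : ℝ, ENNReal.ofReal (‖(v : ℂ) - β‖ ^ (-s)) ∂μ)
    (z : ℂ) (hz : a + lam * θ ≤ z.re) : Dec μ lam s ((a / lam) ^ s - (1 - θ) ^ s * κ) z := by
  intro β hβ
  obtain ⟨W, hW⟩ : ∃ W, W = ∫⁻ v : ℝ, ENNReal.ofReal (‖(v : ℂ) - β‖ ^ (-s)) ∂μ := ⟨_, rfl⟩
  have hWf : W ≠ ∞ := by rw [hW]; exact W_fin μ s hs β hβ
  have hθ0 : 0 ≤ 1 - θ := by linarith
  have hmeas : Measurable fun v : ℝ => ENNReal.ofReal (‖(v : ℂ) - β‖ ^ (-s)) := by
    refine Measurable.ennreal_ofReal ?_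
    exact ((Complex.measurable_ofReal.sub_const β).norm).pow_const (-s)
  have hmeas2 : Measurable fun v : ℝ =>
      ENNReal.ofReal (‖(v : ℂ) - z / (lam : ℂ)‖ ^ s * ‖(v : ℂ) - β‖ ^ (-s)) := by
    refine Measurable.ennreal_ofReal ?_
    exact (((Complex.measurable_ofReal.sub_const _).norm).pow_const s).mul
      (((Complex.measurable_ofReal.sub_const β).norm).pow_const (-s))
  have h1 : ENNReal.ofReal ((a / lam) ^ s) * W ≤
      (∫⁻ v : ℝ, ENNReal.ofReal (‖(v : ℂ) - z / (lam : ℂ)‖ ^ s * ‖(v : ℂ) - β‖ ^ (-s)) ∂μ) +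
        ENNReal.ofReal ((1 - θ) ^ s) * (ENNReal.ofReal κ * W) := by
    calc ENNReal.ofReal ((a / lam) ^ s) * W =
          ∫⁻ v : ℝ, ENNReal.ofReal ((a / lam) ^ s) * ENNReal.ofReal (‖(v : ℂ) - β‖ ^ (-s)) ∂μ := by
          rw [hW, lintegral_const_mul _ hmeas]
      _ ≤ ∫⁻ v : ℝ, (ENNReal.ofReal (‖(v : ℂ) - z / (lam : ℂ)‖ ^ s * ‖(v : ℂ) - β‖ ^ (-s)) +
            (Set.Ioi θ).indicator (fun v : ℝ => ENNReal.ofReal ((1 - θ) ^ s) *
              ENNReal.ofReal (‖(v : ℂ) - β‖ ^ (-s))) v) ∂μ := by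
          refine lintegral_mono_ae ?_
          filter_upwards [hμ] with v hv
          have h2 := pt_top s θ lam a hs hs1 hlam ha z hz v hv
          have h3 : (0 : ℝ) ≤ ‖(v : ℂ) - β‖ ^ (-s) := by positivity
          by_cases hvθ : v ∈ Set.Ioi θ
          · rw [Set.indicator_of_mem hvθ] at h2 ⊢
            rw [← ENNReal.ofReal_mul (by positivity), ← ENNReal.ofReal_mul (by positivity),
              ← ENNReal.ofReal_add (by positivity) (by positivity)]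
            apply ENNReal.ofReal_le_ofReal
            rw [← add_mul]
            exact mul_le_mul_of_nonneg_right h2 h3
          · rw [Set.indicator_of_notMem hvθ] at h2 ⊢
            rw [add_zero] at h2 ⊢
            rw [← ENNReal.ofReal_mul (by positivity)]
            apply ENNReal.ofReal_le_ofReal
            exact mul_le_mul_of_nonneg_right h2 h3
      _ = (∫⁻ v : ℝ, ENNReal.ofReal (‖(v : ℂ) - z / (lam : ℂ)‖ ^ s * ‖(v : ℂ) - β‖ ^ (-s)) ∂μ) +
            ENNReal.ofReal ((1 - θ) ^ s) *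
              ∫⁻ v in Set.Ioi θ, ENNReal.ofReal (‖(v : ℂ) - β‖ ^ (-s)) ∂μ := by
          rw [lintegral_add_left hmeas2, lintegral_indicator measurableSet_Ioi,
            lintegral_const_mul _ hmeas]
      _ ≤ _ := by
          gcongr
          rw [hW]
          exact htail β hβ
  rw [← hW, ENNReal.ofReal_sub _ (by positivity), ENNReal.sub_mul fun _ _ => hWf,
    tsub_le_iff_right]
  refine h1.trans (le_of_eq ?_)
  rw [ENNReal.ofReal_mul (p := (1 - θ) ^ s) (by positivity), mul_assoc]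

end Pool.Agent.H121.ME
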