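import Pool.Agent.H121.ME.Iface
import Pool.Agent.H619.Z987.Lay
import Pool.Agent.H194.Z987.Conv
import Pool.Agent.H650.Z987.Free0

/-! The kinetic energy on `ℤ^d × F`. -/

set_option autoImplicit false
set_option linter.unusedSectionVars false

open scoped BigOperators InnerProductSpace Topology ENNReal
open Filter MeasureTheory

namespace Pool.Agent.H121.ME

open Pool.Agent.Y662.TR (LL Cf Mw dv hu)
open Pool.Agent.H987.Z
open Pool.Agent.H304.Z987 (mul_summable')

theorem Rs_add {ι : Type} (A B : LL ι →L[ℂ] LL ι) (hA : Rs A) (hB : Rs B) : Rs (A + B) := by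
  refine ⟨hA.sa.add hB.sa, fun u v => ?_⟩
  have h1 : ∀ x, (A + B) u x * v x = A u x * v x + B u x * v x := by
    intro x
    have : (A + B) u x = A u x + B u x := rfl
    rw [this]; ring
  have h2 : ∀ x, u x * (A + B) v x = u x * A v x + u x * B v x := by
    intro x
    have : (A + B) v x = A v x + B v x := rfl
    rw [this]; ring
  rw [tsum_congr h1, tsum_congr h2,
    Summable.tsum_add (mul_summable' (A u) v) (mul_summable' (B u) v),
    Summable.tsum_add (mul_summable' u (A v)) (mul_summable' u (B v)),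
    hA.bil u v, hB.bil u v]

section op

variable {d : ℕ} {F : Type} [Group F] (φ : Multiplicative (Fin d → ℤ) →* MulAut F)

/-- horizontal translations -/
def ro1 (s : Multiplicative (Fin d → ℤ)) : Equiv.Perm ((Fin d → ℤ) × F) where
  toFun p := (p.1 + Multiplicative.toAdd s, p.2)
  invFun p := (p.1 - Multiplicative.toAdd s, p.2)
  left_inv p := by simp
  right_inv p := by simp

theorem ro1_RA : RA (ro1 (d := d) (F := F)) where
  one x := by simp [ro1]
  mul s t x := by simp [ro1, add_assoc]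

/-- vertical translations -/
def ro2 (q : F) : Equiv.Perm ((Fin d → ℤ) × F) where
  toFun p := (p.1, p.2 * φ (Multiplicative.ofAdd p.1) q)
  invFun p := (p.1, p.2 * (φ (Multiplicative.ofAdd p.1) q)⁻¹)
  left_inv p := by simp
  right_inv p := by simp

theorem ro2_RA : RA (ro2 φ) where
  one x := by simp [ro2]
  mul s t x := by simp [ro2, mul_assoc]

theorem exists_K (c : F → ℝ) (hc0 : ∀ q, 0 ≤ c q) (hcs : ∀ q, c q⁻¹ = c q) (hcm : Summable c) :
    ∃ K : LL ((Fin d → ℤ) × F) →L[ℂ] LL ((Fin d → ℤ) × F), Rs K ∧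
      ∀ (u : LL ((Fin d → ℤ) × F)) (x : Fin d → ℤ) (f : F),
      K u (x, f) = -∑ i : Fin d, ((u (x + Pi.single i 1, f) - u (x, f)) +
          (u (x - Pi.single i 1, f) - u (x, f))) +
        ∑' q : F, ((c q : ℝ) : ℂ) * u (x, f * φ (Multiplicative.ofAdd x) q) := by
  have hconv := Pool.Agent.H194.Z987.conv
  have hc : Sy c := ⟨hcm.abs, hcs⟩
  obtain ⟨hb, -, -⟩ := Pool.Agent.H650.Z987.free0 hconv d (Multiplicative (Fin d → ℤ))
    (MonoidHom.id _) (fun _ _ h => h)
  obtain ⟨a1, -, a3, -⟩ := hconv _ _ (ro1 (d := d) (F := F)) ro1_RA _ _ hb hb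
  obtain ⟨b1, -, b3, -⟩ := hconv _ _ (ro2 φ) (ro2_RA φ) _ _ hc hc
  obtain ⟨K1, hK1⟩ : ∃ K1 : LL ((Fin d → ℤ) × F) →L[ℂ] LL ((Fin d → ℤ) × F),
      K1 = KA ro1 (b0 (MonoidHom.id (Multiplicative (Fin d → ℤ)))) := ⟨_, rfl⟩
  obtain ⟨K2, hK2⟩ : ∃ K2 : LL ((Fin d → ℤ) × F) →L[ℂ] LL ((Fin d → ℤ) × F),
      K2 = KA (ro2 φ) c := ⟨_, rfl⟩
  rw [← hK1] at a1 a3
  rw [← hK2] at b1 b3
  refine ⟨K1 + K2, Rs_add _ _ a3 b3, fun u x f => ?_⟩
  have e1 : (K1 + K2) u (x, f) = K1 u (x, f) + K2 u (x, f) := rfl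
  rw [e1, (a1 u (x, f)).2, (b1 u (x, f)).2]
  have e2 := Pool.Agent.H619.Z987.b0_has (MonoidHom.id (Multiplicative (Fin d → ℤ)))
    (fun s => u (ro1 s (x, f)))
  rw [e2.tsum_eq]
  congr 1
  have e3 : ∀ i : Fin d, ro1 (F := F) ((MonoidHom.id (Multiplicative (Fin d → ℤ)))
      (Multiplicative.ofAdd (Pi.single i 1))) (x, f) = (x + Pi.single i 1, f) := fun i => rfl
  have e4 : ∀ i : Fin d, ro1 (F := F) ((MonoidHom.id (Multiplicative (Fin d → ℤ)))
      (Multiplicative.ofAdd (Pi.single i (-1)))) (x, f) = (x - Pi.single i 1, f) := by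
    intro i
    have : x + Pi.single i (-1) = x - Pi.single i (1 : ℤ) := by
      rw [Pi.single_neg, sub_eq_add_neg]
    change (x + Pi.single i (-1), f) = _
    rw [this]
  have e5 : ro1 (F := F) (1 : Multiplicative (Fin d → ℤ)) (x, f) = (x, f) := ro1_RA.one _
  simp only [e3, e4, e5]
  rw [← Finset.sum_neg_distrib]
  have e6 : (2 * (d : ℂ)) * u (x, f) = ∑ _i : Fin d, 2 * u (x, f) := by
    rw [Finset.sum_const, Finset.card_univ, Fintype.card_fin, nsmul_eq_mul]
    ring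
  rw [e6, ← Finset.sum_sub_distrib]
  refine Finset.sum_congr rfl fun i _ => ?_
  ring

end op

end Pool.Agent.H121.ME
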