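import Pool.Agent.H121.Z987.Main

/-! Project ME (mobility edge): the Anderson model on `ℤ^d × F` (project Z of helper987) has, at the
same small disorder, absolutely continuous spectrum inside of the band and exponentially localized
states near the upper band edge (for single site laws with a thin upper tail).

The sub-statements. -/

set_option autoImplicit false

open scoped BigOperators InnerProductSpace Topology ENNReal
open Filter MeasureTheory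

namespace Pool.Agent.H121.ME

open Pool.Agent.Y662.TR (LL Cf Mw dv hu)
open Pool.Agent.TH369.AN (Rz)
open Pool.Agent.TH369.MU (SpM ep zk)
open Pool.Agent.H987.Z
open Pool.Agent.H121.Z987 (wt HH)

/-- the measure `w(E) dE` -/
noncomputable def Qw (w : ℝ → ℝ) : Measure ℝ := volume.withDensity fun E => ENNReal.ofReal (w E)

/-- the part of the averaged second moment outside of the finite set `F`, with the weight `w` -/
noncomputable def Tw (w : ℝ → ℝ) {ι : Type} (T : LL ι →L[ℂ] LL ι) (y : ι) (F : Finset ι) (k : ℕ) :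
    ℝ≥0∞ :=
  ∫⁻ E, ∑' x : {x : ι // x ∉ F}, ENNReal.ofReal (ep k * ‖Gr T (zk E k) x y‖ ^ 2) ∂(Qw w)

/-- **ME-TAIL (decoupling for an upper tail).** `μ` a probability measure on `[-1,1]` with density at
most `D`, the tail `(θ, ∞)` has mass at most `ε ≤ 1`.

Proof. `W = ∫ |v - β|^{-s} dμ`, `W' = ∫_{v > θ} |v - β|^{-s} dμ`.
(i) `|β| ≤ 2`: `W ≥ 3^{-s} ≥ 1/3` (as `|v - β| ≤ 3`), and
`W' ≤ ∫_{|v - Re β| < ε} |v - Re β|^{-s} D dv + ε^{-s} μ(θ, ∞) ≤ 2 D ε^{1-s}/(1-s) + ε^{1-s}`.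
(ii) `|β| > 2`: `|β|/2 ≤ |v - β| ≤ 3|β|/2` on `[-1,1]`, so `W' ≤ (|β|/2)^{-s} ε`, `W ≥ (3|β|/2)^{-s}` and
`W' ≤ 3^s ε W ≤ 3 ε^{1-s} W`. Compare the file `Pool/Agent/H122/Z987/DecCore.lean` (the same estimates
for `S_dec`). -/
def S_tail : Prop :=
  ∀ s D : ℝ, 0 < s → s < 1 → 0 < D →
    ∀ (μ : Measure ℝ) [IsProbabilityMeasure μ], (∀ᵐ v ∂μ, |v| ≤ 1) →
      (∀ A : Set ℝ, MeasurableSet A → μ A ≤ ENNReal.ofReal D * volume A) →
      ∀ θ ε : ℝ, 0 < ε → ε ≤ 1 → μ (Set.Ioi θ) ≤ ENNReal.ofReal ε →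
      ∀ β : ℂ, β.im ≠ 0 →
        ∫⁻ v in Set.Ioi θ, ENNReal.ofReal (‖(v : ℂ) - β‖ ^ (-s)) ∂μ ≤
          ENNReal.ofReal (3 * ε ^ (1 - s) * (2 * D / (1 - s) + 1)) *
            ∫⁻ v : ℝ, ENNReal.ofReal (‖(v : ℂ) - β‖ ^ (-s)) ∂μ

/-- **ME-WIENA (the Wiener type theorem with a weight).** This is `S_wien` of
`Pool/Agent/H121/Z987/Iface.lean`, proved by helper717 in `Pool/Agent/H717/Z987/{WienA,WienB,Wien}.lean`,
with the weight `wt` (and the measure `Q = wt dE`) replaced by a continuous weight `0 ≤ w ≤ wt`.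
Copy these files and generalize. What changes: the exact formula `P_Q` becomes the limit
`∫ P t ε E dQw(E) → π w(t)` (`ε → 0`; substitute `E = t + ε u`, dominated convergence with
`w ≤ 1`, `∫ 1/(1+u²) = π`) and the bound `∫ P t ε E dQw(E) ≤ π`; `ka_diag` gives
`ka ε t t = ∫ P t ε E dQw(E)`; at the end `∫_{Dᶜ} w dm = 0` gives `m (Dᶜ ∩ {w > 0}) = 0`. -/
def S_wienA : Prop :=
  ∀ (w : ℝ → ℝ), Continuous w → (∀ E, 0 ≤ w E) → (∀ E, w E ≤ wt E) →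
    ∀ (ι : Type) [Countable ι] (T : LL ι →L[ℂ] LL ι), Rs T → ∀ y : ι,
      (∀ δ : ℝ≥0∞, 0 < δ → ∃ F : Finset ι, liminf (fun k => Tw w T y F k) atTop ≤ δ) →
      ∀ m : Measure ℝ, SpM T (dv y) m → ∃ A : Set ℝ, A.Countable ∧ m ({E | 0 < w E} \ A) = 0

/-- **ME-WIENB (lower bound by an eigenvector).** If `t` is a simple eigenvalue with the eigenvector `u`
then `π w(t) |u(x)|² |u(y)|² / ‖u‖⁴ ≤ liminf_k ∫ ε_k |G(x, y; E + i ε_k)|² w(E) dE`.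

Proof. With the notation of `Pool/Agent/H717/Z987/Wien.lean` (`pol`: `4 G(x,y;z) = F_{m_+}(z) - F_{m_-}(z)`,
`diff_lim` with the weight `w`): the limit is `(π/16) ∑_{t'} w(t') (m_+{t'} - m_-{t'})²`, at least
`π w(t) c²`, `c = (m_+{t} - m_-{t})/4 = lim (-i ε) G(x,y;t + iε)` (`Fm_atom`). And
`c = u(x) conj(u(y)) / ‖u‖²`: `dv y = a u + v` with `a = conj(u y)/‖u‖²`, `v ⟂ u`; the vector
`-iε (T - t - iε)⁻¹ u = u`, and `-iε (T - t - iε)⁻¹ v → 0`: for the spectral measure `m_v` one has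
`⟪v, -iε (T - t - iε)⁻¹ v⟫ → m_v{t}`; `‖-iε (T - t - iε)⁻¹ v‖² = ε Im ⟪v, (T - t - iε)⁻¹ v⟫ → m_v{t}` and a
weak limit point `v'` of `-iε (T - t - iε)⁻¹ v` is an eigenvector (or `0`), so a multiple of `u`,
orthogonal to `u` (as `⟪u, -iε (T - t - iε)⁻¹ v⟫ = ⟪iε(T-t+iε)⁻¹ u, v⟫ = ⟪u, v⟫ = 0`), hence `0`.
Alternative to weak limits: `v` lies in the closure of the range of `T - t` (orthogonal complement of
the kernel, the multiples of `u`), and `ε (T - t - iε)⁻¹ (T - t) → 0` in norm, `‖ε (T - t - iε)⁻¹‖ ≤ 1`. -/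
def S_wienB : Prop :=
  ∀ (w : ℝ → ℝ), Continuous w → (∀ E, 0 ≤ w E) → (∀ E, w E ≤ wt E) →
    ∀ (ι : Type) [Countable ι] (T : LL ι →L[ℂ] LL ι), Rs T → ∀ (x y : ι) (t : ℝ) (u : LL ι),
      T u = (t : ℂ) • u → u ≠ 0 → (∀ v : LL ι, T v = (t : ℂ) • v → ∃ a : ℂ, v = a • u) →
      ENNReal.ofReal (Real.pi * w t * (‖u x‖ ^ 2 * ‖u y‖ ^ 2 / ‖u‖ ^ 4)) ≤
        liminf (fun k => ∫⁻ E, ENNReal.ofReal (ep k * ‖Gr T (zk E k) x y‖ ^ 2) ∂(Qw w)) atTop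

/-- **ME-SIMPLE (simplicity of the eigenvalues).** `HH T lam ω = T + lam ω` (potential clipped to
`[-lam, lam]`).

Proof. (1) For a site `y` let `m_y^ω` be the spectral measure of `dv y` for `HH T lam ω`, and for a site
`x` let `n_x^ω` be the spectral measure of `dv x` for `HH T lam (Function.update ω y 0)`. Claim: for all
`x, y`, almost surely `m_y^ω` and `n_x^ω` have no common atom. Let
`D(ω) = ∑_t wt(t) m_y^ω{t} n_x^ω{t}`; by helper717's `J_lim0`, `kl_sum`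
(`Pool/Agent/H717/Z987/WienB.lean`) `π D(ω) = lim_k ∫ ε_k G_ω(y,y;z) conj(G_{ω'}(x,x;z)) dQ(E)`, a
measurable function of `ω` (`Gr_meas` in `Pool/Agent/H121/Z987/Op.lean`; `Measurable.ite`,
`measurable_of_tendsto`). By `lint_resample` (`Pool/Agent/H121/Z987/Rs.lean`) it suffices that for every
`ω` and `μ`-almost all `v`: `D(update ω y v) = 0`; here `n_x` does not depend on `v`, and for a fixed `t`
there is at most one `v ∈ [-1,1]` for which `t` is an atom of `m_y^{update ω y v}`: if `H_v ψ = t ψ`,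
`ψ(y) ≠ 0`, `H_{v'} ψ' = t ψ'`, `ψ'(y) ≠ 0` (eigenvectors from atoms, see (2)), then
`lam (v - v') conj(ψ'(y)) ψ(y) = 0`. So `D(update ω y v) = 0` for all `v` outside of a countable set, which
is a null set of `μ`. (2) `t` is an atom of the spectral measure of `dv y` iff there is an eigenvector `ψ`
with `ψ(y) ≠ 0` (von Neumann: `-iε (T - t - iε)⁻¹ → ` projection on the eigenspace, `Fm_atom`; if the
limit of `⟪dv y, -iε (T - t - iε)⁻¹ dv y⟫` is zero then `dv y` is orthogonal to all eigenvectors, since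
`‖-iε(T-t-iε)⁻¹ dv y‖² = ε Im ⟪dv y, (T-t-iε)⁻¹ dv y⟫` and `⟪ψ, dv y⟫ = ⟪ψ, -iε(T-t-iε)⁻¹ dv y⟫`; and if all
eigenvectors vanish at `y` then `dv y` is in the closure of the range of `T - t` and the limit is zero).
(3) If `u, v` are linearly independent eigenvectors of `HH T lam ω` for `t`, choose `y` with `u(y) ≠ 0`;
`w = v(y) u - u(y) v ≠ 0` vanishes at `y`, so `w` is an eigenvector of `HH T lam (update ω y 0)` for `t` as
well, and with `w(x) ≠ 0` the number `t` is a common atom of `m_y^ω` and `n_x^ω`. -/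
def S_simple : Prop :=
  ∀ (ι : Type) [Countable ι] (T : LL ι →L[ℂ] LL ι), Rs T → ∀ lam : ℝ, 0 < lam →
    ∀ (μ : Measure ℝ) [IsProbabilityMeasure μ], (∀ᵐ v ∂μ, |v| ≤ 1) → (∀ v : ℝ, μ {v} = 0) →
    ∀ᵐ ω ∂(Measure.infinitePi fun _ : ι => μ), ∀ (t : ℝ) (u v : LL ι),
      HH T lam ω u = (t : ℂ) • u → HH T lam ω v = (t : ℂ) • v → u ≠ 0 → ∃ a : ℂ, v = a • u

/-- **ME-TOPA (a spectral lemma).** If `⟪φ, T φ⟫ > e0 ‖φ‖²` then some spectral measure of a site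
charges `(e0, ∞)`.

Proof. Otherwise `m_φ (e0, ∞) = 0` for the spectral measure of every vector `φ` (`comp_null` and the end of
`Pool/Agent/H295/Z987/Clos.lean`). For `z = iη`: `-z (z ⟪φ, (T-z)⁻¹ φ⟫ + ‖φ‖²) = -z ⟪φ, T (T-z)⁻¹ φ⟫ → ⟪φ, T φ⟫`
as `η → ∞`, and with `m = m_φ`, `m(ℝ) = ‖φ‖²`, the real part of the left side is
`∫ η² E/(E² + η²) dm(E) ≤ e0 m(ℝ)` (here `e0 ≥ 0`). -/
def S_topA : Prop :=
  ∀ (ι : Type) [Countable ι] (T : LL ι →L[ℂ] LL ι), IsSelfAdjoint T → ∀ (e0 : ℝ) (φ : LL ι), 0 ≤ e0 →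
    e0 * ‖φ‖ ^ 2 < (⟪φ, T φ⟫_ℂ).re →
    ∃ y : ι, ∀ m : Measure ℝ, SpM T (dv y) m → m (Set.Ioi e0) ≠ 0

/-- **ME-TOPB (the upper band edge).** The numerical range of `K + lam ω` reaches
`4 d + ∑ c + lam`, almost surely.

Proof. Let `κ > 0` be small, `S ⊂ F` finite with `∑_{q ∈ S} c q ≥ ∑ c - κ`, `F₀` = the subgroup generated
by all `φ x q`, `q ∈ S`, `x ∈ ℤ^d` (finite by the two finiteness hypotheses; `φ x q ∈ F₀` for all
`q ∈ S` and all `x`), `B_j = j L e_1 + {0, …, L-1}^d` (`j ∈ ℕ`, pairwise disjoint boxes; `e_1` exists as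
`1 ≤ d`) and `u_j (x, f) = (-1)^(∑ x_i)` for `(x, f) ∈ Λ_j = B_j × F₀`, `0` otherwise. Then
`⟪u_j, K u_j⟫ = ∑_{(x,f) ∈ Λ_j} (2d + #{neighbours of x in B_j} + ∑_{q : φ x q ∈ F₀} c q) ≥
|Λ_j| (2d + 2d (1 - 1/L) + ∑ c - κ)`. If `ω ≥ 1 - κ` on `Λ_j`, then
`⟪u_j, (K + lam ω) u_j⟫ ≥ |Λ_j| (4d - 2d/L + ∑ c - κ + lam (1 - κ)) > e0 ‖u_j‖²` for small `κ` and large `L`.
The events `ω ≥ 1 - κ on Λ_j` (`j ∈ ℕ`) are independent with the same positive probability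
`μ[1 - κ, ∞)^|Λ|`, so almost surely one of them happens (`iIndepFun_infinitePi`,
`iIndepFun.finsets_comp`, `measure_limsup_eq_one`; or directly: the probability that none of the first
`n` happens is `(1 - p)^n`). -/
def S_topB : Prop :=
  ∀ (d : ℕ) (F : Type) [Group F] [Countable F] (φ : Multiplicative (Fin d → ℤ) →* MulAut F) (c : F → ℝ)
    (K : LL ((Fin d → ℤ) × F) →L[ℂ] LL ((Fin d → ℤ) × F)), 1 ≤ d → (∀ q, 0 ≤ c q) → Summable c →
    (∀ S : Finset F, ((Subgroup.closure (S : Set F) : Subgroup F) : Set F).Finite) →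
    (∀ q : F, (Set.range fun x => φ x q).Finite) →
    (∀ (u : LL ((Fin d → ℤ) × F)) (x : Fin d → ℤ) (f : F),
      K u (x, f) = -∑ i : Fin d, ((u (x + Pi.single i 1, f) - u (x, f)) +
          (u (x - Pi.single i 1, f) - u (x, f))) +
        ∑' q : F, ((c q : ℝ) : ℂ) * u (x, f * φ (Multiplicative.ofAdd x) q)) →
    ∀ (μ : Measure ℝ) [IsProbabilityMeasure μ], (∀ᵐ v ∂μ, |v| ≤ 1) →
    (∀ δ : ℝ, 0 < δ → 0 < μ (Set.Ioi (1 - δ))) → ∀ lam : ℝ, 0 < lam →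
    ∀ e0 : ℝ, e0 < 4 * d + ∑' q, c q + lam →
    ∀ᵐ ω ∂(Measure.infinitePi fun _ : (Fin d → ℤ) × F => μ), ∃ u : LL ((Fin d → ℤ) × F),
      e0 * ‖u‖ ^ 2 < (⟪u, HH K lam ω u⟫_ℂ).re

/-- **ME-LAW (laws with a thin tail).** A symmetric probability measure on `[-1,1]` with density at most
one, which charges every neighbourhood of `1`, with a prescribed bound of its tail.

Proof. For instance the density `ρ` with `ρ(-v) = ρ(v)`, `ρ = t_n` on `[1 - 1/n, 1 - 1/(n+1))`, `n ≥ 2`,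
`0 < t_n ≤ min (1, ψ 2, …, ψ n)/2^n` and `ρ = 1 - 2 τ` on `[-1/2, 1/2]`, `τ = ∑_{n ≥ 2} t_n/(n (n+1)) ≤ 1/2`. -/
def S_law : Prop :=
  ∀ ψ : ℕ → ℝ, (∀ n, 0 < ψ n) → ∃ μ : Measure ℝ, IsProbabilityMeasure μ ∧ (∀ᵐ v ∂μ, |v| ≤ 1) ∧
    (∀ A : Set ℝ, MeasurableSet A → μ A ≤ volume A) ∧
    (∀ A : Set ℝ, MeasurableSet A → μ ((fun v => -v) ⁻¹' A) = μ A) ∧
    (∀ δ : ℝ, 0 < δ → 0 < μ (Set.Ioi (1 - δ))) ∧
    ∀ n : ℕ, 2 ≤ n → μ (Set.Ioi (1 - 1 / n)) ≤ ENNReal.ofReal (ψ n)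

/-- **ME-SIG (exponents close to one).** `s ↦ ∑ c^s` is continuous from the left at `s = 1` (dominated
convergence: for `1/2 ≤ s ≤ 1`, `c^s ≤ c^(1/2) + c`), and so is `(2d)^s`. -/
def S_sig : Prop :=
  ∀ (F : Type) [Countable F] (c : F → ℝ), (∀ q, 0 ≤ c q) →
    (∀ p : ℝ, 0 < p → Summable fun q => c q ^ p) → ∀ (d : ℕ) (a : ℝ), 4 * d + ∑' q, c q < a →
    ∃ s : ℝ, 0 < s ∧ s < 1 ∧ ((2 : ℝ) * d) ^ s + 2 * d + ∑' q, c q ^ s < a ^ s

/-- **ME-HOPS (the matrix elements of the kinetic energy).** As `S_hop` in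
`Pool/Agent/H987/Z/StF.lean` (its proof: search `hop` in `Pool/Agent/*/Z987`), with the explicit constant.
`r (x, f) = ∑ |x_i|`. -/
def S_hops : Prop :=
  ∀ (d : ℕ) (F : Type) [Group F] (φ : Multiplicative (Fin d → ℤ) →* MulAut F) (c : F → ℝ)
    (K : LL ((Fin d → ℤ) × F) →L[ℂ] LL ((Fin d → ℤ) × F)) (s : ℝ), 0 < s → s ≤ 1 → (∀ q, 0 ≤ c q) →
    (Summable fun q => c q ^ s) →
    (∀ (u : LL ((Fin d → ℤ) × F)) (x : Fin d → ℤ) (f : F),
      K u (x, f) = -∑ i : Fin d, ((u (x + Pi.single i 1, f) - u (x, f)) +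
          (u (x - Pi.single i 1, f) - u (x, f))) +
        ∑' q : F, ((c q : ℝ) : ℂ) * u (x, f * φ (Multiplicative.ofAdd x) q)) →
    (∀ p, (Summable fun y => ‖K (dv y) p‖ ^ s) ∧
      ∑' y, ‖K (dv y) p‖ ^ s ≤ ((2 : ℝ) * d) ^ s + 2 * d + ∑' q, c q ^ s) ∧
    ∀ p y, K (dv y) p ≠ 0 → ∑ i, (p.1 i).natAbs ≤ (∑ i, (y.1 i).natAbs) + 1

end Pool.Agent.H121.ME
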