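import Pool.Agent.H121.ME.Main
import Pool.Agent.H121.ME.Dec
import Pool.Agent.H121.ME.Oper
import Pool.Agent.H122.Z987.Dec
import Pool.Agent.H122.ME.WienB
import Pool.Agent.H253.ME.WienA
import Pool.Agent.H962.ME.Simple
import Pool.Agent.H962.ME.TopA
import Pool.Agent.H354.ME.Tail
import Pool.Agent.H410.ME.TopB
import Pool.Agent.H734.ME.Sig
import Pool.Agent.H164.ME.Hops
import Pool.Agent.H630.ME.LawS
import Pool.Agent.H987.Z.Main

/-! Assembly: localization near the upper band edge and at strong disorder. -/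

set_option autoImplicit false
set_option linter.unusedSectionVars false

open scoped BigOperators InnerProductSpace Topology ENNReal
open Filter MeasureTheory

namespace Pool.Agent.H121.ME

open Pool.Agent.Y662.TR (LL Cf Mw dv hu lmk ll_ext ll_summable clp_eq Mw_apply)
open Pool.Agent.TH369.AN (Rz)
open Pool.Agent.TH369.MU (SpM ep zk spm_exists)
open Pool.Agent.H987.Z
open Pool.Agent.H121.Z987 (wt HH HH_apply HH_rs)

/-! ### atoms are eigenvalues -/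

theorem atom_eig {ι : Type} (T : LL ι →L[ℂ] LL ι) (hT : IsSelfAdjoint T) (φ : LL ι) :
    ∃ m : Measure ℝ, SpM T φ m ∧ ∀ E : ℝ, m {E} ≠ 0 → ∃ ψ : LL ι, ψ ≠ 0 ∧ T ψ = (E : ℂ) • ψ := by
  obtain ⟨m, hf, -, -, hcfc, -, he⟩ := Pool.Agent.H54R3.Spec508.exists_spectral T hT φ
  exact ⟨m, ⟨hf, fun z hz => Pool.Agent.TH369.AN.spec_borel T hT φ m hcfc z hz⟩, he⟩

/-! ### the weight -/

/-- the weight for the energies above `e` -/
noncomputable def we (e E : ℝ) : ℝ := wt E * min 1 (max 0 (E - e))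

theorem wt_pos (E : ℝ) : 0 < wt E := by unfold wt; positivity

theorem wt_cont : Continuous wt := by
  unfold wt
  refine Continuous.div continuous_const (by fun_prop) fun E => ?_
  positivity

theorem we_cont (e : ℝ) : Continuous (we e) := by
  unfold we
  exact wt_cont.mul (by fun_prop)

theorem we_nonneg (e E : ℝ) : 0 ≤ we e E := by
  unfold we
  have := (wt_pos E).le
  have : (0 : ℝ) ≤ min 1 (max 0 (E - e)) := le_min zero_le_one (le_max_left _ _)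
  positivity

theorem we_le (e E : ℝ) : we e E ≤ wt E := by
  unfold we
  exact mul_le_of_le_one_right (wt_pos E).le (min_le_left _ _)

theorem we_pos (e E : ℝ) : 0 < we e E ↔ e < E := by
  unfold we
  constructor
  · intro h
    by_contra hcon
    rw [max_eq_left (by linarith), min_eq_right (by norm_num), mul_zero] at h
    exact lt_irrefl _ h
  · intro h
    refine mul_pos (wt_pos E) (lt_min one_pos (lt_max_of_lt_right (by linarith)))

/-! ### parameters -/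

/-- the length of a site -/
def len {d : ℕ} {F : Type} (p : (Fin d → ℤ) × F) : ℕ := ∑ i, (p.1 i).natAbs

/-- the energy above which there is localization -/
noncomputable def eE (M lam : ℝ) (n : ℕ) : ℝ := M + lam * (1 - 1 / n) + 1 / (2 * (n : ℝ) ^ 2)

/-- the choice of the parameters, for one `n` -/
theorem params {F : Type} [Countable F] (c : F → ℝ) (hc0 : ∀ q, 0 ≤ c q)
    (hcp : ∀ p : ℝ, 0 < p → Summable fun q => c q ^ p) (d : ℕ) (D : ℝ) (hD : 0 < D) (n : ℕ)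
    (hn : 1 ≤ n) : ∃ s γ κ ε : ℝ, 0 < s ∧ s < 1 ∧ 0 < γ ∧ 0 < κ ∧ 0 < ε ∧ ε ≤ 1 ∧
      3 * ε ^ (1 - s) * (2 * D / (1 - s) + 1) ≤ κ ∧
      Real.exp γ * (((2 : ℝ) * d) ^ s + 2 * d + ∑' q, c q ^ s) <
        (4 * d + ∑' q, c q + 1 / (2 * (n : ℝ) ^ 2)) ^ s - κ := by
  have hn0 : (0 : ℝ) < n := by exact_mod_cast hn
  obtain ⟨a, ha⟩ : ∃ a : ℝ, a = 4 * d + ∑' q, c q + 1 / (2 * (n : ℝ) ^ 2) := ⟨_, rfl⟩
  rw [← ha]
  obtain ⟨s, hs0, hs1, hs⟩ := Pool.Agent.H734.ME.sig F c hc0 hcp d a (by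
    rw [ha]
    have : (0 : ℝ) < 1 / (2 * (n : ℝ) ^ 2) := by positivity
    linarith)
  obtain ⟨S, hS⟩ : ∃ S, S = ((2 : ℝ) * d) ^ s + 2 * d + ∑' q, c q ^ s := ⟨_, rfl⟩
  rw [← hS] at hs
  -- choice of γ
  have h1 : ContinuousAt (fun γ : ℝ => Real.exp γ * S) 0 := by fun_prop
  have h2 : (fun γ : ℝ => Real.exp γ * S) 0 < a ^ s := by simpa using hs
  have h3 := h1.eventually_lt_const h2
  obtain ⟨δ, hδ, hδ2⟩ := Metric.eventually_nhds_iff.1 h3
  have h4 : Real.exp (δ / 2) * S < a ^ s := by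
    apply hδ2
    rw [Real.dist_eq, sub_zero, abs_of_pos (by linarith)]
    linarith
  obtain ⟨κ, hκ⟩ : ∃ κ, κ = (a ^ s - Real.exp (δ / 2) * S) / 2 := ⟨_, rfl⟩
  have hκ0 : 0 < κ := by rw [hκ]; linarith
  -- choice of ε
  obtain ⟨B, hB⟩ : ∃ B, B = 3 * (2 * D / (1 - s) + 1) := ⟨_, rfl⟩
  have hs1' : 0 < 1 - s := by linarith
  have hB0 : 0 < B := by rw [hB]; positivity
  obtain ⟨ε, hε⟩ : ∃ ε : ℝ, ε = min 1 ((κ / B) ^ (1 / (1 - s))) := ⟨_, rfl⟩
  have hε0 : 0 < ε := by rw [hε]; exact lt_min one_pos (by positivity)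
  refine ⟨s, δ / 2, κ, ε, hs0, hs1, by linarith, hκ0, hε0, ?_, ?_, ?_⟩
  · rw [hε]; exact min_le_left _ _
  · have h5 : ε ^ (1 - s) ≤ κ / B := by
      calc ε ^ (1 - s) ≤ ((κ / B) ^ (1 / (1 - s))) ^ (1 - s) := by
            apply Real.rpow_le_rpow hε0.le _ hs1'.le
            rw [hε]; exact min_le_right _ _
        _ = κ / B := by
            rw [← Real.rpow_mul (by positivity), one_div_mul_cancel hs1'.ne', Real.rpow_one]
    calc 3 * ε ^ (1 - s) * (2 * D / (1 - s) + 1) = ε ^ (1 - s) * B := by rw [hB]; ring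
      _ ≤ κ / B * B := by gcongr
      _ = κ := by field_simp
  · rw [← hS, hκ]
    linarith

section final

variable {d : ℕ} {F : Type} [Group F] [Countable F]

/-- the Hamiltonian of project Z is the operator `HH` -/
theorem ham_eq (φ : Multiplicative (Fin d → ℤ) →* MulAut F) (c : F → ℝ)
    (K : LL (Site d F) →L[ℂ] LL (Site d F))
    (hK : ∀ (u : LL (Site d F)) (x : Fin d → ℤ) (f : F),
      K u (x, f) = -∑ i : Fin d, ((u (x + Pi.single i 1, f) - u (x, f)) +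
          (u (x - Pi.single i 1, f) - u (x, f))) +
        ∑' q : F, ((c q : ℝ) : ℂ) * u (x, f * φ (Multiplicative.ofAdd x) q))
    (lam : ℝ) (ω : Site d F → ℝ) (hω : ∀ x, |ω x| ≤ 1) (u : LL (Site d F)) (p : Site d F) :
    Ham φ c lam ω (fun y => u y) p = HH K lam ω u p := by
  obtain ⟨x, f⟩ := p
  rw [HH_apply, hK, clp_eq]
  · rfl
  · rw [abs_mul]
    exact mul_le_of_le_one_right (abs_nonneg _) (hω _)

/-- the statements on spectral measures and eigenvectors in terms of functions -/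
def PP (A : (Site d F → ℂ) → Site d F → ℂ) (e : ℝ) : Prop :=
  ∀ (f : Site d F → ℂ) (m : Measure ℝ), SqS f → IsSp A f m →
    ∃ N : Set ℝ, N.Countable ∧ m (Set.Ioi e \ N) = 0

/-- exponential decay of the eigenfunctions with energies above `e` -/
def ED (A : (Site d F → ℂ) → Site d F → ℂ) (γ e : ℝ) : Prop :=
  ∀ (t : ℝ) (u : Site d F → ℂ), e < t → SqS u → (∀ p, A u p = (t : ℂ) * u p) →
    Summable fun p => Real.exp (γ * len p) * ‖u p‖ ^ 2

/-- existence of an eigenvalue above `e` -/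
def EX (A : (Site d F → ℂ) → Site d F → ℂ) (e : ℝ) : Prop :=
  ∃ (t : ℝ) (u : Site d F → ℂ), e < t ∧ SqS u ∧ (∃ p, u p ≠ 0) ∧ ∀ p, A u p = (t : ℂ) * u p

theorem bdd_ae (μ : Measure ℝ) [IsProbabilityMeasure μ] (hμ : ∀ᵐ v ∂μ, |v| ≤ 1) :
    ∀ᵐ ω ∂(Measure.infinitePi fun _ : Site d F => μ), ∀ g, |ω g| ≤ 1 := by
  rw [ae_all_iff]
  intro g
  have h1 := (measurePreserving_eval_infinitePi (fun _ : Site d F => μ)
    g).quasiMeasurePreserving
  exact h1.ae hμ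

/-- existence of spectral measures -/
theorem has_sp (φ : Multiplicative (Fin d → ℤ) →* MulAut F) (c : F → ℝ) (hc0 : ∀ q, 0 ≤ c q)
    (hcs : ∀ q, c q⁻¹ = c q) (hcm : Summable c) (μ : Measure ℝ) [IsProbabilityMeasure μ]
    (hμ : ∀ᵐ v ∂μ, |v| ≤ 1) (lam : ℝ) :
    ∀ᵐ ω ∂(Measure.infinitePi fun _ : Site d F => μ),
      ∀ f : Site d F → ℂ, SqS f → ∃ m : Measure ℝ, IsSp (Ham φ c lam ω) f m := by
  obtain ⟨K, hK, hKa⟩ := exists_K φ c hc0 hcs hcm
  filter_upwards [bdd_ae μ hμ] with ω hb f hf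
  have hA : ∀ (u : LL (Site d F)) (p : Site d F),
      Ham φ c lam ω (fun y => u y) p = HH K lam ω u p := ham_eq φ c K hKa lam ω hb
  obtain ⟨m, hm, -⟩ := spm_exists (HH K lam ω) (HH_rs K hK lam ω).sa (lmk f hf)
  exact ⟨m, of_sp _ _ (HH_rs K hK lam ω).sa hA f hf m hm⟩

/-- **localization near the upper band edge** -/
theorem edge (hd : 1 ≤ d) (φ : Multiplicative (Fin d → ℤ) →* MulAut F) (c : F → ℝ)
    (hlf : ∀ S : Finset F, ((Subgroup.closure (S : Set F) : Subgroup F) : Set F).Finite)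
    (hfo : ∀ q : F, (Set.range fun x => φ x q).Finite)
    (hc0 : ∀ q, 0 ≤ c q) (hcs : ∀ q, c q⁻¹ = c q)
    (hcp : ∀ p : ℝ, 0 < p → Summable fun q => c q ^ p) (D : ℝ) (hD : 0 < D) :
    ∃ ψ γ : ℕ → ℝ, (∀ n, 0 < ψ n) ∧ (∀ n, 0 < γ n) ∧
      ∀ (μ : Measure ℝ) [IsProbabilityMeasure μ], (∀ᵐ v ∂μ, |v| ≤ 1) →
      (∀ A : Set ℝ, MeasurableSet A → μ A ≤ ENNReal.ofReal D * volume A) →
      ∀ (lam : ℝ) (n : ℕ), 0 < lam → lam ≤ n → 1 ≤ n * lam →
      μ (Set.Ioi (1 - 1 / n)) ≤ ENNReal.ofReal (ψ n) →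
      (∀ᵐ ω ∂(Measure.infinitePi fun _ : Site d F => μ),
        PP (Ham φ c lam ω) (eE (4 * d + ∑' q, c q) lam n) ∧
        ED (Ham φ c lam ω) (γ n) (eE (4 * d + ∑' q, c q) lam n)) ∧
      ((∀ δ : ℝ, 0 < δ → 0 < μ (Set.Ioi (1 - δ))) →
        ∀ᵐ ω ∂(Measure.infinitePi fun _ : Site d F => μ),
          EX (Ham φ c lam ω) (eE (4 * d + ∑' q, c q) lam n)) := by
  have hcm : Summable c := by
    refine (hcp 1 one_pos).congr fun q => ?_
    rw [Real.rpow_one]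
  obtain ⟨K, hK, hKa⟩ := exists_K φ c hc0 hcs hcm
  have hpar : ∀ n : ℕ, ∃ s γ κ ε : ℝ, 0 < s ∧ s < 1 ∧ 0 < γ ∧ 0 < κ ∧ 0 < ε ∧ ε ≤ 1 ∧
      (1 ≤ n → 3 * ε ^ (1 - s) * (2 * D / (1 - s) + 1) ≤ κ ∧
      Real.exp γ * (((2 : ℝ) * d) ^ s + 2 * d + ∑' q, c q ^ s) <
        (4 * d + ∑' q, c q + 1 / (2 * (n : ℝ) ^ 2)) ^ s - κ) := by
    intro n
    by_cases hn : 1 ≤ n
    · obtain ⟨s, γ, κ, ε, h1, h2, h3, h4, h5, h6, h7, h8⟩ := params c hc0 hcp d D hD n hn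
      exact ⟨s, γ, κ, ε, h1, h2, h3, h4, h5, h6, fun _ => ⟨h7, h8⟩⟩
    · exact ⟨1 / 2, 1, 1, 1, by norm_num, by norm_num, by norm_num, by norm_num, by norm_num,
        le_rfl, fun h => absurd h hn⟩
  choose s γ κ ε hs0 hs1 hγ hκ hε0 hε1 hpar' using hpar
  refine ⟨ε, γ, hε0, hγ, ?_⟩
  intro μ _ hμ hμD lam n hlam hln hnl htail
  have hn1 : 1 ≤ n := by
    rcases Nat.eq_zero_or_pos n with h | h
    · rw [h] at hln
      simp at hln
      linarith
    · exact h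
  have hn0 : (0 : ℝ) < n := by exact_mod_cast hn1
  obtain ⟨hp1, hp2⟩ := hpar' n hn1
  obtain ⟨e, he⟩ : ∃ e, e = eE (4 * d + ∑' q, c q) lam n := ⟨_, rfl⟩
  rw [← he]
  obtain ⟨a, ha⟩ : ∃ a : ℝ, a = 4 * d + ∑' q, c q + 1 / (2 * (n : ℝ) ^ 2) := ⟨_, rfl⟩
  rw [← ha] at hp2
  have hcn : 0 ≤ ∑' q, c q := tsum_nonneg hc0
  have hdn : (0 : ℝ) ≤ d := Nat.cast_nonneg _
  have ha0 : 0 < a := by
    rw [ha]
    positivity
  have hea : e = a + lam * (1 - 1 / n) := by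
    rw [he, ha]
    unfold eE
    ring
  obtain ⟨S, hS⟩ : ∃ S, S = ((2 : ℝ) * d) ^ (s n) + 2 * d + ∑' q, c q ^ (s n) := ⟨_, rfl⟩
  rw [← hS] at hp2
  have hS0 : 0 ≤ S := by
    rw [hS]
    have : 0 ≤ ∑' q, c q ^ (s n) := tsum_nonneg fun q => Real.rpow_nonneg (hc0 q) _
    positivity
  obtain ⟨hops1, hops2⟩ := Pool.Agent.H164.ME.hops d F φ c K (s n) (hs0 n) (hs1 n).le hc0
    (hcp _ (hs0 n)) hKa
  rw [← hS] at hops1
  -- the constant of the decoupling inequality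
  obtain ⟨cc, hcc⟩ : ∃ cc : ℝ, cc = (a / lam) ^ (s n) - (1 - (1 - 1 / (n : ℝ))) ^ (s n) * κ n :=
    ⟨_, rfl⟩
  have hccl : a ^ (s n) - κ n ≤ cc * lam ^ (s n) := by
    have h1 : (1 - (1 - 1 / (n : ℝ))) = 1 / n := by ring
    rw [hcc, h1, sub_mul, Real.div_rpow ha0.le hlam.le, div_mul_cancel₀ _ (by positivity)]
    have h2 : (1 / (n : ℝ)) ^ (s n) * κ n * lam ^ (s n) = (lam / n) ^ (s n) * κ n := by
      rw [Real.div_rpow hlam.le hn0.le, Real.div_rpow zero_le_one hn0.le, Real.one_rpow]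
      ring
    rw [h2]
    have h3 : (lam / n) ^ (s n) ≤ 1 := by
      apply Real.rpow_le_one (by positivity) _ (hs0 n).le
      rw [div_le_one hn0]
      exact hln
    have h4 := hκ n
    nlinarith
  have hcc1 : Real.exp (γ n) * S < cc * lam ^ (s n) := lt_of_lt_of_le hp2 hccl
  have hcc0 : 0 < cc * lam ^ (s n) := lt_of_le_of_lt (by positivity) hcc1
  have htl : ∀ β : ℂ, β.im ≠ 0 →
      ∫⁻ v in Set.Ioi (1 - 1 / (n : ℝ)), ENNReal.ofReal (‖(v : ℂ) - β‖ ^ (-s n)) ∂μ ≤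
        ENNReal.ofReal (κ n) * ∫⁻ v : ℝ, ENNReal.ofReal (‖(v : ℂ) - β‖ ^ (-s n)) ∂μ := by
    intro β hβ
    refine (Pool.Agent.H354.ME.s_tail (s n) D (hs0 n) (hs1 n) hD μ hμ hμD _ (ε n) (hε0 n) (hε1 n)
      htail β hβ).trans ?_
    gcongr
  have hdec : ∀ z : ℂ, 0 < z.im → z.re ∈ Set.Ioi e → Dec μ lam (s n) cc z := by
    intro z _ hz
    rw [hcc]
    refine dec_top μ hμ (s n) _ (κ n) lam a (hs0 n) (hs1 n) ?_ (hκ n).le hlam ha0.le htl z ?_
    · have : (0 : ℝ) < 1 / n := by positivity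
      linarith
    · have hz' : e < z.re := hz
      linarith
  have hloc := locW Pool.Agent.H253.ME.wienA Pool.Agent.H122.ME.wienB Pool.Agent.H962.ME.simple
    (we e) (we_cont e) (we_nonneg e) (we_le e) (Set.Ioi e) (fun E hE => (we_pos e E).1 hE) K hK
    lam hlam (s n) cc S (γ n) D (hs0 n) (hs1 n) (hγ n).le hcc0 hcc1 hS0 hD hops1 len hops2 μ hμ
    hμD hdec
  have hset : {E | 0 < we e E} = Set.Ioi e := by
    ext E
    exact we_pos e E
  rw [hset] at hloc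
  have hpos : 0 < 1 / (2 * (n : ℝ) ^ 2) := by positivity
  constructor
  · filter_upwards [hloc, bdd_ae μ hμ] with ω hω hb
    obtain ⟨h1, h2⟩ := hω
    have hA : ∀ (u : LL (Site d F)) (p : Site d F),
        Ham φ c lam ω (fun y => u y) p = HH K lam ω u p := ham_eq φ c K hKa lam ω hb
    refine ⟨fun f m hf hm => h1 _ m (sp_of _ _ (HH_rs K hK lam ω).sa hA f hf m hm), ?_⟩
    intro t u ht hu hut
    have h3 := h2 t (lmk u hu) ((we_pos e t).2 ht) (by
      apply ll_ext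
      intro p
      rw [← hA]
      exact hut p)
    exact h3
  · intro hsup
    have htop := Pool.Agent.H410.ME.topB d F φ c K hd hc0 hcm hlf hfo hKa μ hμ hsup lam hlam e (by
      rw [hea, ha]
      have h5 : 1 / (2 * (n : ℝ) ^ 2) < lam * (1 / n) := by
        rw [mul_one_div, div_lt_div_iff₀ (by positivity) hn0]
        nlinarith
      linarith)
    have he0 : 0 ≤ e := by
      rw [hea]
      have h1 : 0 ≤ 1 - 1 / (n : ℝ) := by
        rw [sub_nonneg, div_le_one hn0]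
        exact_mod_cast hn1
      positivity
    filter_upwards [hloc, bdd_ae μ hμ, htop] with ω hω hb ht
    obtain ⟨h1, h2⟩ := hω
    obtain ⟨v, hv⟩ := ht
    have hA : ∀ (u : LL (Site d F)) (p : Site d F),
        Ham φ c lam ω (fun y => u y) p = HH K lam ω u p := ham_eq φ c K hKa lam ω hb
    obtain ⟨y, hy⟩ := Pool.Agent.H962.ME.topA _ (HH K lam ω) (HH_rs K hK lam ω).sa e v he0 hv
    obtain ⟨m, hm, hme⟩ := atom_eig (HH K lam ω) (HH_rs K hK lam ω).sa (dv y)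
    obtain ⟨N, hN, hmN⟩ := h1 _ m hm
    have hm0 := hy m hm
    have h3 : m (Set.Ioi e ∩ N) ≠ 0 := by
      intro h
      apply hm0
      rw [← Set.inter_union_sdiff (Set.Ioi e) N]
      exact measure_union_null h hmN
    obtain ⟨t, ht, htm⟩ : ∃ t ∈ Set.Ioi e ∩ N, m {t} ≠ 0 := by
      by_contra hcon
      push Not at hcon
      apply h3
      have hc : (Set.Ioi e ∩ N).Countable := hN.mono Set.inter_subset_right
      rw [← Set.biUnion_of_singleton (Set.Ioi e ∩ N)]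
      exact (measure_biUnion_null_iff hc).2 hcon
    obtain ⟨ψ, hψ0, hψ⟩ := hme t htm
    refine ⟨t, fun p => ψ p, ht.1, ll_summable ψ, ?_, fun p => ?_⟩
    · by_contra hcon
      push Not at hcon
      exact hψ0 (ll_ext hcon)
    · rw [hA, hψ]
      rfl

/-- **strong disorder** -/
theorem strong (φ : Multiplicative (Fin d → ℤ) →* MulAut F) (c : F → ℝ)
    (hc0 : ∀ q, 0 ≤ c q) (hcs : ∀ q, c q⁻¹ = c q)
    (hcp : ∀ p : ℝ, 0 < p → Summable fun q => c q ^ p) (D : ℝ) (hD : 0 < D) :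
    ∃ lam1 : ℝ, 0 < lam1 ∧ ∀ (μ : Measure ℝ) [IsProbabilityMeasure μ], (∀ᵐ v ∂μ, |v| ≤ 1) →
      (∀ A : Set ℝ, MeasurableSet A → μ A ≤ ENNReal.ofReal D * volume A) →
      ∀ lam : ℝ, lam1 ≤ lam →
      ∀ᵐ ω ∂(Measure.infinitePi fun _ : Site d F => μ),
        (∀ (f : Site d F → ℂ) (m : Measure ℝ), SqS f → IsSp (Ham φ c lam ω) f m →
          ∃ N : Set ℝ, N.Countable ∧ m Nᶜ = 0) ∧
        ∀ (t : ℝ) (u : Site d F → ℂ), SqS u → (∀ p, Ham φ c lam ω u p = (t : ℂ) * u p) →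
          Summable fun p => Real.exp (len p) * ‖u p‖ ^ 2 := by
  have hcm : Summable c := by
    refine (hcp 1 one_pos).congr fun q => ?_
    rw [Real.rpow_one]
  obtain ⟨K, hK, hKa⟩ := exists_K φ c hc0 hcs hcm
  obtain ⟨s, hs⟩ : ∃ s : ℝ, s = 1 / 2 := ⟨_, rfl⟩
  have hs0 : 0 < s := by rw [hs]; norm_num
  have hs1 : s < 1 := by rw [hs]; norm_num
  obtain ⟨c0, hc0', hdec⟩ := Pool.Agent.H122.Z987.dec s D hs0 hs1 hD
  obtain ⟨S, hS⟩ : ∃ S, S = ((2 : ℝ) * d) ^ s + 2 * d + ∑' q, c q ^ s := ⟨_, rfl⟩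
  have hS0 : 0 ≤ S := by
    rw [hS]
    have : 0 ≤ ∑' q, c q ^ s := tsum_nonneg fun q => Real.rpow_nonneg (hc0 q) _
    positivity
  obtain ⟨hops1, hops2⟩ := Pool.Agent.H164.ME.hops d F φ c K s hs0 hs1.le hc0 (hcp _ hs0) hKa
  rw [← hS] at hops1
  refine ⟨((Real.exp 1 * S + 1) / c0) ^ (1 / s), by positivity, ?_⟩
  intro μ _ hμ hμD lam hlam
  have hlam0 : 0 < lam := lt_of_lt_of_le (by positivity) hlam
  have hcl : Real.exp 1 * S + 1 ≤ c0 * lam ^ s := by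
    have h5 : (Real.exp 1 * S + 1) / c0 ≤ lam ^ s := by
      calc (Real.exp 1 * S + 1) / c0 = (((Real.exp 1 * S + 1) / c0) ^ (1 / s)) ^ s := by
            rw [← Real.rpow_mul (by positivity), one_div_mul_cancel hs0.ne', Real.rpow_one]
        _ ≤ lam ^ s := Real.rpow_le_rpow (by positivity) hlam hs0.le
    rw [div_le_iff₀ hc0'] at h5
    linarith
  have hcc0 : 0 < c0 * lam ^ s := by positivity
  have hloc := locW Pool.Agent.H253.ME.wienA Pool.Agent.H122.ME.wienB Pool.Agent.H962.ME.simple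
    wt wt_cont (fun E => (wt_pos E).le) (fun E => le_rfl) Set.univ (fun E _ => Set.mem_univ _) K hK
    lam hlam0 s c0 S 1 D hs0 hs1 zero_le_one hcc0 (by linarith) hS0 hD hops1 len hops2 μ hμ
    hμD (fun z _ _ β hβ => hdec μ hμ hμD _ β hβ)
  filter_upwards [hloc, bdd_ae μ hμ] with ω hω hb
  obtain ⟨h1, h2⟩ := hω
  have hA : ∀ (u : LL (Site d F)) (p : Site d F),
      Ham φ c lam ω (fun y => u y) p = HH K lam ω u p := ham_eq φ c K hKa lam ω hb
  constructor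
  · intro f m hf hm
    obtain ⟨N, hN, hmN⟩ := h1 _ m (sp_of _ _ (HH_rs K hK lam ω).sa hA f hf m hm)
    refine ⟨N, hN, ?_⟩
    convert hmN using 2
    ext E
    simp [wt_pos E]
  · intro t u hu hut
    have h3 := h2 t (lmk u hu) (wt_pos t) (by
      apply ll_ext
      intro p
      rw [← hA]
      exact hut p)
    refine h3.congr fun p => ?_
    rw [one_mul]
    rfl

end final

end Pool.Agent.H121.ME
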