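import Pool.Agent.H121.ME.Fm
import Pool.Agent.H295.Z987.Clos

/-! Localization in an energy window. -/

set_option autoImplicit false
set_option linter.unusedSectionVars false

open scoped BigOperators InnerProductSpace Topology ENNReal
open Filter MeasureTheory

namespace Pool.Agent.H121.ME

open Pool.Agent.Y662.TR hiding wt
open Pool.Agent.TH369.AN (Rz rz_eq rz_uniq rz_norm)
open Pool.Agent.TH369.MU (SpM ep zk spm_exists)
open Pool.Agent.TH369.MU.PO2 (ep_pos ep_tendsto)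
open Pool.Agent.H987.Z
open Pool.Agent.H304.Z987 (mul_summable' tsum_dv' Gr_symm Gr_im Gr_le rz_sub' Gr_sub_z_le)
open Pool.Agent.H121.Z987

variable {ι : Type} [Countable ι]

theorem Qw_fin (w : ℝ → ℝ) (hw1 : ∀ E, w E ≤ wt E) : Qw w Set.univ ≠ ∞ := by
  refine ne_top_of_le_ne_top Q_fin ?_
  unfold Qw Q
  rw [withDensity_apply _ MeasurableSet.univ, withDensity_apply _ MeasurableSet.univ]
  exact lintegral_mono fun E => ENNReal.ofReal_le_ofReal (hw1 E)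

theorem Qw_isFinite (w : ℝ → ℝ) (hw1 : ∀ E, w E ≤ wt E) : IsFiniteMeasure (Qw w) :=
  ⟨(Qw_fin w hw1).lt_top⟩

theorem Qw_ae (w : ℝ → ℝ) (hwc : Continuous w) : ∀ᵐ E ∂(Qw w), 0 < w E := by
  unfold Qw
  rw [ae_withDensity_iff hwc.measurable.ennreal_ofReal]
  refine Eventually.of_forall fun E hE => ?_
  by_contra h
  exact hE (ENNReal.ofReal_eq_zero.2 (not_lt.1 h))

open Classical in
/-- the second moments -/
theorem sm_leW (I : Set ℝ) (T : LL ι →L[ℂ] LL ι) (hT : Rs T) (lam : ℝ) (s C : ℝ)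
    (hs : 0 < s) (μ : Measure ℝ) [IsProbabilityMeasure μ] (hμ : ∀ᵐ v ∂μ, |v| ≤ 1)
    (hg : Gra μ lam s C) (y : ι) (E : ℝ) (hE : E ∈ I) (k : ℕ) (x : ι) :
    ∫⁻ ω, ENNReal.ofReal (ep k * ‖Gr (HH T lam ω) (zk E k) x y‖ ^ 2)
      ∂(Measure.infinitePi fun _ : ι => μ) ≤ ENNReal.ofReal C * fs I T lam s μ y x := by
  have hz : (zk E k).im ≠ 0 := by rw [Pool.Agent.H121.Z987.zk_im]; exact (ep_pos k).ne'
  have hm := Gr_meas1 T hT lam (zk E k) x y hz
  have hm1 : Measurable fun ω : ι → ℝ =>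
      ENNReal.ofReal (ep k * ‖Gr (HH T lam ω) (zk E k) x y‖ ^ 2) :=
    ((hm.norm.pow_const 2).const_mul _).ennreal_ofReal
  have hm2 : Measurable fun ω : ι → ℝ => ‖Gr (HH T lam ω) (zk E k) x y‖ₑ ^ s :=
    hm.enorm.pow_const s
  calc ∫⁻ ω, ENNReal.ofReal (ep k * ‖Gr (HH T lam ω) (zk E k) x y‖ ^ 2)
        ∂(Measure.infinitePi fun _ : ι => μ) =
        ∫⁻ ω, ∫⁻ v, ENNReal.ofReal (ep k *
          ‖Gr (HH T lam (Function.update ω x v)) (zk E k) x y‖ ^ 2) ∂μ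
          ∂(Measure.infinitePi fun _ : ι => μ) := lint_resample μ x _ hm1
    _ ≤ ∫⁻ ω, ENNReal.ofReal C *
          ∫⁻ v, ‖Gr (HH T lam (Function.update ω x v)) (zk E k) x y‖ₑ ^ s ∂μ
          ∂(Measure.infinitePi fun _ : ι => μ) :=
        lintegral_mono fun ω => graf_gr T hT lam s C hs μ hμ hg ω E k x y
    _ = ENNReal.ofReal C * fm T lam s μ y (zk E k) x := by
        rw [lintegral_const_mul' _ _ ENNReal.ofReal_ne_top]
        unfold fm
        rw [lint_resample μ x _ hm2]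
    _ ≤ _ := by
        gcongr
        exact le_iSup (fun p : I × ℕ => fm T lam s μ y (zk (p.1 : ℝ) p.2) x) (⟨E, hE⟩, k)

theorem Tw_meas (w : ℝ → ℝ) (hw1 : ∀ E, w E ≤ wt E) (T : LL ι →L[ℂ] LL ι) (hT : Rs T) (lam : ℝ)
    (y : ι) (F : Finset ι) (k : ℕ) :
    Measurable fun ω : ι → ℝ => Tw w (HH T lam ω) y F k := by
  unfold Tw
  have := Qw_isFinite w hw1
  have h1 : Measurable (Function.uncurry fun (E : ℝ) (ω : ι → ℝ) =>
      ∑' x : {x : ι // x ∉ F}, ENNReal.ofReal (ep k * ‖Gr (HH T lam ω) (zk E k) x y‖ ^ 2)) := by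
    refine Measurable.tsum fun x => ?_
    exact (((Gr_meas T hT lam k x y).norm.pow_const 2).const_mul _).ennreal_ofReal
  exact Measurable.lintegral_prod_left' h1

/-- the averaged second moment of one matrix element -/
noncomputable def Sw (w : ℝ → ℝ) (T : LL ι →L[ℂ] LL ι) (x y : ι) (k : ℕ) : ℝ≥0∞ :=
  ∫⁻ E, ENNReal.ofReal (ep k * ‖Gr T (zk E k) x y‖ ^ 2) ∂(Qw w)

theorem Sw_meas (w : ℝ → ℝ) (hw1 : ∀ E, w E ≤ wt E) (T : LL ι →L[ℂ] LL ι) (hT : Rs T) (lam : ℝ)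
    (x y : ι) (k : ℕ) : Measurable fun ω : ι → ℝ => Sw w (HH T lam ω) x y k := by
  unfold Sw
  have := Qw_isFinite w hw1
  exact Measurable.lintegral_prod_left'
    (((Gr_meas T hT lam k x y).norm.pow_const 2).const_mul _).ennreal_ofReal

theorem Sw_int (w : ℝ → ℝ) (hwc : Continuous w) (hw1 : ∀ E, w E ≤ wt E) (I : Set ℝ)
    (hI : ∀ E, 0 < w E → E ∈ I) (T : LL ι →L[ℂ] LL ι) (hT : Rs T) (lam : ℝ) (s C : ℝ)
    (hs : 0 < s) (μ : Measure ℝ) [IsProbabilityMeasure μ] (hμ : ∀ᵐ v ∂μ, |v| ≤ 1)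
    (hg : Gra μ lam s C) (x y : ι) (k : ℕ) :
    ∫⁻ ω, Sw w (HH T lam ω) x y k ∂(Measure.infinitePi fun _ : ι => μ) ≤
      ENNReal.ofReal C * Qw w Set.univ * fs I T lam s μ y x := by
  unfold Sw
  have := Qw_isFinite w hw1
  have h2 : Measurable (Function.uncurry fun (E : ℝ) (ω : ι → ℝ) =>
      ENNReal.ofReal (ep k * ‖Gr (HH T lam ω) (zk E k) x y‖ ^ 2)) :=
    (((Gr_meas T hT lam k x y).norm.pow_const 2).const_mul _).ennreal_ofReal
  rw [← lintegral_lintegral_swap (μ := Qw w) (ν := Measure.infinitePi fun _ : ι => μ)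
    (f := fun (E : ℝ) (ω : ι → ℝ) => ENNReal.ofReal
      (ep k * ‖Gr (HH T lam ω) (zk E k) x y‖ ^ 2)) h2.aemeasurable]
  calc ∫⁻ E, ∫⁻ ω, ENNReal.ofReal
          (ep k * ‖Gr (HH T lam ω) (zk E k) x y‖ ^ 2) ∂(Measure.infinitePi fun _ : ι => μ) ∂(Qw w) ≤
        ∫⁻ _, ENNReal.ofReal C * fs I T lam s μ y x ∂(Qw w) := by
        refine lintegral_mono_ae ?_
        filter_upwards [Qw_ae w hwc] with E hE
        exact sm_leW I T hT lam s C hs μ hμ hg y E (hI E hE) k x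
    _ = _ := by
        rw [lintegral_const]
        ring

theorem Tw_eq (w : ℝ → ℝ) (T : LL ι →L[ℂ] LL ι) (hT : Rs T) (y : ι) (F : Finset ι) (k : ℕ) :
    Tw w T y F k = ∑' x : {x : ι // x ∉ F}, Sw w T x y k := by
  unfold Tw Sw
  rw [lintegral_tsum fun x => ?_]
  have h1 := Gr_E_cont T hT k (x : ι) y
  exact ((h1.norm.pow 2).const_smul (ep k)).measurable.ennreal_ofReal.aemeasurable

theorem Tw_int (w : ℝ → ℝ) (hwc : Continuous w) (hw1 : ∀ E, w E ≤ wt E) (I : Set ℝ)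
    (hI : ∀ E, 0 < w E → E ∈ I) (T : LL ι →L[ℂ] LL ι) (hT : Rs T) (lam : ℝ) (s C : ℝ)
    (hs : 0 < s) (μ : Measure ℝ) [IsProbabilityMeasure μ] (hμ : ∀ᵐ v ∂μ, |v| ≤ 1)
    (hg : Gra μ lam s C) (y : ι) (F : Finset ι) (k : ℕ) :
    ∫⁻ ω, Tw w (HH T lam ω) y F k ∂(Measure.infinitePi fun _ : ι => μ) ≤
      ENNReal.ofReal C * Qw w Set.univ * ∑' x : {x : ι // x ∉ F}, fs I T lam s μ y x := by
  simp only [Tw_eq w _ (HH_rs T hT lam _) y F k]
  rw [lintegral_tsum fun x : {x : ι // x ∉ F} => (Sw_meas w hw1 T hT lam x y k).aemeasurable,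
    ← ENNReal.tsum_mul_left]
  exact ENNReal.tsum_le_tsum fun x => Sw_int w hwc hw1 I hI T hT lam s C hs μ hμ hg x y k

/-- the final step in the environment -/
theorem ae_tightW (w : ℝ → ℝ) (hwc : Continuous w) (hw1 : ∀ E, w E ≤ wt E) (I : Set ℝ)
    (hI : ∀ E, 0 < w E → E ∈ I) (T : LL ι →L[ℂ] LL ι) (hT : Rs T) (lam : ℝ) (s C : ℝ)
    (hs : 0 < s) (μ : Measure ℝ) [IsProbabilityMeasure μ] (hμ : ∀ᵐ v ∂μ, |v| ≤ 1)
    (hg : Gra μ lam s C) (y : ι) (hfs : ∑' x, fs I T lam s μ y x ≠ ∞) :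
    ∀ᵐ ω ∂(Measure.infinitePi fun _ : ι => μ), ∀ δ : ℝ≥0∞, 0 < δ → ∃ F : Finset ι,
      liminf (fun k => Tw w (HH T lam ω) y F k) atTop ≤ δ := by
  obtain ⟨B, hB⟩ : ∃ B, B = ENNReal.ofReal C * Qw w Set.univ := ⟨_, rfl⟩
  have hBtop : B ≠ ∞ := by
    rw [hB]
    exact ENNReal.mul_ne_top ENNReal.ofReal_ne_top (Qw_fin w hw1)
  have h0 : Tendsto (fun F : Finset ι => B * ∑' x : {x : ι // x ∉ F}, fs I T lam s μ y x) atTop
      (𝓝 0) := by
    have h1 := ENNReal.tendsto_tsum_compl_atTop_zero hfs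
    have h2 := ENNReal.Tendsto.const_mul h1 (Or.inr hBtop)
    rw [mul_zero] at h2
    exact h2
  have h3 : ∀ n : ℕ, ∃ F : Finset ι,
      B * ∑' x : {x : ι // x ∉ F}, fs I T lam s μ y x ≤ ((n : ℝ≥0∞) + 1)⁻¹ := by
    intro n
    have hpos : (0 : ℝ≥0∞) < ((n : ℝ≥0∞) + 1)⁻¹ := by
      refine ENNReal.inv_pos.2 ?_
      exact ENNReal.add_ne_top.2 ⟨ENNReal.natCast_ne_top n, ENNReal.one_ne_top⟩
    obtain ⟨F, hF⟩ := (h0.eventually (ge_mem_nhds hpos)).exists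
    exact ⟨F, hF⟩
  choose F hF using h3
  have hm : ∀ n, Measurable fun ω : ι → ℝ => liminf (fun k => Tw w (HH T lam ω) y (F n) k) atTop :=
    fun n => Measurable.liminf fun k => Tw_meas w hw1 T hT lam y (F n) k
  have h4 : ∀ n, ∫⁻ ω, liminf (fun k => Tw w (HH T lam ω) y (F n) k) atTop
      ∂(Measure.infinitePi fun _ : ι => μ) ≤ ((n : ℝ≥0∞) + 1)⁻¹ := by
    intro n
    refine (lintegral_liminf_le (μ := Measure.infinitePi fun _ : ι => μ) (u := atTop)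
      (f := fun k ω => Tw w (HH T lam ω) y (F n) k)
      fun k => Tw_meas w hw1 T hT lam y (F n) k).trans ?_
    refine liminf_le_of_frequently_le' (Filter.Eventually.frequently ?_)
    filter_upwards with k
    refine (Tw_int w hwc hw1 I hI T hT lam s C hs μ hμ hg y (F n) k).trans ?_
    rw [← hB]
    exact hF n
  have h5 : ∫⁻ ω, ⨅ n, liminf (fun k => Tw w (HH T lam ω) y (F n) k) atTop
      ∂(Measure.infinitePi fun _ : ι => μ) = 0 := by
    refine le_antisymm ?_ bot_le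
    have h6 : Tendsto (fun n : ℕ => ((n : ℝ≥0∞) + 1)⁻¹) atTop (𝓝 0) := by
      have h7 := ENNReal.tendsto_inv_nat_nhds_zero
      have h8 := (tendsto_add_atTop_iff_nat 1).2 h7
      refine h8.congr fun n => ?_
      push_cast
      rfl
    refine ge_of_tendsto' h6 fun n => le_trans ?_ (h4 n)
    exact lintegral_mono fun ω => iInf_le _ n
  rw [lintegral_eq_zero_iff (Measurable.iInf hm)] at h5
  filter_upwards [h5] with ω hω δ hδ
  have h6 : ⨅ n, liminf (fun k => Tw w (HH T lam ω) y (F n) k) atTop < δ := by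
    have : (⨅ n, liminf (fun k => Tw w (HH T lam ω) y (F n) k) atTop) = 0 := hω
    rw [this]
    exact hδ
  obtain ⟨n, hn⟩ := iInf_lt_iff.1 h6
  exact ⟨F n, hn.le⟩

/-- exponentially weighted second moments -/
theorem ae_dec (w : ℝ → ℝ) (hwc : Continuous w) (hw1 : ∀ E, w E ≤ wt E) (I : Set ℝ)
    (hI : ∀ E, 0 < w E → E ∈ I) (T : LL ι →L[ℂ] LL ι) (hT : Rs T) (lam : ℝ) (s C : ℝ)
    (hs : 0 < s) (μ : Measure ℝ) [IsProbabilityMeasure μ] (hμ : ∀ᵐ v ∂μ, |v| ≤ 1)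
    (hg : Gra μ lam s C) (y : ι) (ρ : ι → ℝ≥0∞)
    (hfs : ∑' x, ρ x * fs I T lam s μ y x ≠ ∞) :
    ∀ᵐ ω ∂(Measure.infinitePi fun _ : ι => μ),
      ∑' x, ρ x * liminf (fun k => Sw w (HH T lam ω) x y k) atTop ≠ ∞ := by
  have hm : ∀ x, Measurable fun ω : ι → ℝ => liminf (fun k => Sw w (HH T lam ω) x y k) atTop :=
    fun x => Measurable.liminf fun k => Sw_meas w hw1 T hT lam x y k
  have h1 : ∫⁻ ω, ∑' x, ρ x * liminf (fun k => Sw w (HH T lam ω) x y k) atTop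
      ∂(Measure.infinitePi fun _ : ι => μ) ≠ ∞ := by
    rw [lintegral_tsum fun x => ((hm x).const_mul _).aemeasurable]
    refine ne_top_of_le_ne_top (ENNReal.mul_ne_top (ENNReal.mul_ne_top
      (ENNReal.ofReal_ne_top (r := C)) (Qw_fin w hw1)) hfs) ?_
    rw [← ENNReal.tsum_mul_left]
    refine ENNReal.tsum_le_tsum fun x => ?_
    rw [lintegral_const_mul _ (hm x)]
    have h2 : ∫⁻ ω, liminf (fun k => Sw w (HH T lam ω) x y k) atTop
        ∂(Measure.infinitePi fun _ : ι => μ) ≤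
        ENNReal.ofReal C * Qw w Set.univ * fs I T lam s μ y x := by
      refine (lintegral_liminf_le (μ := Measure.infinitePi fun _ : ι => μ) (u := atTop)
        (f := fun k ω => Sw w (HH T lam ω) x y k)
        fun k => Sw_meas w hw1 T hT lam x y k).trans ?_
      refine liminf_le_of_frequently_le' (Filter.Eventually.frequently ?_)
      filter_upwards with k
      exact Sw_int w hwc hw1 I hI T hT lam s C hs μ hμ hg x y k
    calc ρ x * ∫⁻ ω, liminf (fun k => Sw w (HH T lam ω) x y k) atTop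
          ∂(Measure.infinitePi fun _ : ι => μ) ≤
        ρ x * (ENNReal.ofReal C * Qw w Set.univ * fs I T lam s μ y x) := by gcongr
      _ = _ := by ring
  have h2 := ae_lt_top (Measurable.tsum fun x => (hm x).const_mul (ρ x)) h1
  filter_upwards [h2] with ω hω
  exact hω.ne

/-- from the sites to all vectors, in a set of energies -/
theorem closW (T : LL ι →L[ℂ] LL ι) (hT : IsSelfAdjoint T) (U : Set ℝ) (hU : MeasurableSet U)
    (hy : ∀ y : ι, ∃ (m : Measure ℝ) (A : Set ℝ), SpM T (dv y) m ∧ A.Countable ∧ m (U \ A) = 0)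
    (φ : LL ι) (m : Measure ℝ) (hm : SpM T φ m) : ∃ A : Set ℝ, A.Countable ∧ m (U \ A) = 0 := by
  choose M A hM hA hMA using hy
  haveI := hm.1
  refine ⟨⋃ y, A y, Set.countable_iUnion hA, ?_⟩
  have hme : MeasurableSet (U \ ⋃ y, A y) := hU.diff (Set.countable_iUnion hA).measurableSet
  rw [MeasurableSet.measure_eq_iSup_isCompact hme]
  simp only [ENNReal.iSup_eq_zero]
  intro K hKs hK
  refine Pool.Agent.H295.Z987.comp_null T hT M hM φ m hm K hK fun x => ?_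
  refine measure_mono_null ?_ (hMA x)
  refine hKs.trans ?_
  exact Set.diff_subset_diff_right (Set.subset_iUnion A x)

/-- **localization in an energy window** -/
theorem locW (hA : S_wienA) (hB : S_wienB) (hSi : S_simple)
    (w : ℝ → ℝ) (hwc : Continuous w) (hw0 : ∀ E, 0 ≤ w E) (hw1 : ∀ E, w E ≤ wt E) (I : Set ℝ)
    (hI : ∀ E, 0 < w E → E ∈ I) (T : LL ι →L[ℂ] LL ι) (hT : Rs T) (lam : ℝ) (hlam : 0 < lam)
    (s c S γ D : ℝ) (hs : 0 < s) (hs1 : s < 1) (hγ : 0 ≤ γ) (hL : 0 < c * lam ^ s)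
    (hc : Real.exp γ * S < c * lam ^ s) (hS : 0 ≤ S) (hD : 0 < D)
    (hTs : ∀ x, (Summable fun y => ‖T (dv y) x‖ ^ s) ∧ ∑' y, ‖T (dv y) x‖ ^ s ≤ S)
    (r : ι → ℕ) (hr : ∀ x y, T (dv y) x ≠ 0 → r x ≤ r y + 1)
    (μ : Measure ℝ) [IsProbabilityMeasure μ] (hμ : ∀ᵐ v ∂μ, |v| ≤ 1)
    (hμD : ∀ A : Set ℝ, MeasurableSet A → μ A ≤ ENNReal.ofReal D * volume A)
    (hd : ∀ z : ℂ, 0 < z.im → z.re ∈ I → Dec μ lam s c z) :
    ∀ᵐ ω ∂(Measure.infinitePi fun _ : ι => μ),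
      (∀ (φ : LL ι) (m : Measure ℝ), SpM (HH T lam ω) φ m →
        ∃ A : Set ℝ, A.Countable ∧ m ({E | 0 < w E} \ A) = 0) ∧
      ∀ (t : ℝ) (u : LL ι), 0 < w t → HH T lam ω u = (t : ℂ) • u →
        Summable fun x => Real.exp (γ * r x) * ‖u x‖ ^ 2 := by
  obtain ⟨C, hC, hgraf⟩ := Pool.Agent.H410.Z987.graf s D lam hs hs1 hD hlam
  have hg : Gra μ lam s C := hgraf μ hμ hμD
  have hU : MeasurableSet {E | 0 < w E} := (isOpen_lt continuous_const hwc).measurableSet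
  have hatom : ∀ v : ℝ, μ {v} = 0 := by
    intro v
    have h1 := hμD {v} (measurableSet_singleton v)
    simpa using h1
  have hfsW : ∀ y, ∑' x, ENNReal.ofReal (Real.exp (γ * r x)) * fs I T lam s μ y x ≠ ∞ := fun y =>
    fs_sumW I T hT lam hlam s c S γ hs hs1.le hγ hL hc hS hTs r hr μ hμ hd y
  have hfs : ∀ y, ∑' x, fs I T lam s μ y x ≠ ∞ := by
    intro y
    refine ne_top_of_le_ne_top (hfsW y) (ENNReal.tsum_le_tsum fun x => ?_)
    have h1 : (1 : ℝ≥0∞) ≤ ENNReal.ofReal (Real.exp (γ * r x)) := by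
      rw [← ENNReal.ofReal_one]
      apply ENNReal.ofReal_le_ofReal
      exact Real.one_le_exp (by positivity)
    calc fs I T lam s μ y x = 1 * fs I T lam s μ y x := (one_mul _).symm
      _ ≤ _ := by gcongr
  have h1 : ∀ᵐ ω ∂(Measure.infinitePi fun _ : ι => μ), ∀ y : ι, ∀ δ : ℝ≥0∞, 0 < δ →
      ∃ F : Finset ι, liminf (fun k => Tw w (HH T lam ω) y F k) atTop ≤ δ := by
    rw [ae_all_iff]
    intro y
    exact ae_tightW w hwc hw1 I hI T hT lam s C hs μ hμ hg y (hfs y)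
  have h2 : ∀ᵐ ω ∂(Measure.infinitePi fun _ : ι => μ), ∀ y : ι,
      ∑' x, ENNReal.ofReal (Real.exp (γ * r x)) *
        liminf (fun k => Sw w (HH T lam ω) x y k) atTop ≠ ∞ := by
    rw [ae_all_iff]
    intro y
    exact ae_dec w hwc hw1 I hI T hT lam s C hs μ hμ hg y _ (hfsW y)
  have h3 := hSi ι T hT lam hlam μ hμ hatom
  filter_upwards [h1, h2, h3] with ω hω1 hω2 hω3
  constructor
  · intro φ m hm
    refine closW (HH T lam ω) (HH_rs T hT lam ω).sa _ hU (fun y => ?_) φ m hm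
    obtain ⟨m', hm', -⟩ := spm_exists (HH T lam ω) (HH_rs T hT lam ω).sa (dv y)
    obtain ⟨A, hA1, hA2⟩ := hA w hwc hw0 hw1 ι (HH T lam ω) (HH_rs T hT lam ω) y (hω1 y) m' hm'
    exact ⟨m', A, hm', hA1, hA2⟩
  · intro t u ht hu
    by_cases hu0 : u = 0
    · rw [hu0]
      simp only [lp.coeFn_zero, Pi.zero_apply, norm_zero]
      simpa using summable_zero
    · obtain ⟨y, hy⟩ : ∃ y, u y ≠ 0 := by
        by_contra hcon
        push Not at hcon
        exact hu0 (ll_ext hcon)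
      have hsim : ∀ v : LL ι, HH T lam ω v = (t : ℂ) • v → ∃ a : ℂ, v = a • u := fun v hv =>
        hω3 t u v hu hv hu0
      obtain ⟨κ, hκ⟩ : ∃ κ : ℝ, κ = Real.pi * w t * (‖u y‖ ^ 2 / ‖u‖ ^ 4) := ⟨_, rfl⟩
      have hκ0 : 0 < κ := by
        rw [hκ]
        have := norm_pos_iff.2 hy
        have := norm_pos_iff.2 hu0
        have := Real.pi_pos
        positivity
      have h4 : ∑' x, ENNReal.ofReal (κ * (Real.exp (γ * r x) * ‖u x‖ ^ 2)) ≠ ∞ := by
        refine ne_top_of_le_ne_top (hω2 y) (ENNReal.tsum_le_tsum fun x => ?_)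
        have h5 := hB w hwc hw0 hw1 ι (HH T lam ω) (HH_rs T hT lam ω) x y t u hu hu0 hsim
        have h6 : κ * (Real.exp (γ * r x) * ‖u x‖ ^ 2) =
            Real.exp (γ * r x) * (Real.pi * w t * (‖u x‖ ^ 2 * ‖u y‖ ^ 2 / ‖u‖ ^ 4)) := by
          rw [hκ]
          ring
        rw [h6, ENNReal.ofReal_mul (Real.exp_pos _).le]
        gcongr
        exact h5
      have h5 : Summable fun x => κ * (Real.exp (γ * r x) * ‖u x‖ ^ 2) := by
        have h6 := ENNReal.summable_toReal h4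
        refine h6.congr fun x => ?_
        rw [ENNReal.toReal_ofReal (by positivity)]
      have h6 := h5.mul_left κ⁻¹
      refine h6.congr fun x => ?_
      rw [← mul_assoc, inv_mul_cancel₀ hκ0.ne', one_mul]

end Pool.Agent.H121.ME
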