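import Pool.Agent.H121.ME.Iter
import Pool.Agent.H410.Z987.Graf

/-! Fractional moments in an energy window. -/

set_option autoImplicit false
set_option linter.unusedSectionVars false

open scoped BigOperators InnerProductSpace Topology ENNReal
open Filter MeasureTheory

namespace Pool.Agent.H121.ME

open Pool.Agent.Y662.TR
open Pool.Agent.TH369.AN (Rz rz_eq rz_uniq rz_norm)
open Pool.Agent.TH369.MU (SpM ep zk spm_exists)
open Pool.Agent.TH369.MU.PO2 (ep_pos ep_tendsto)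
open Pool.Agent.H987.Z
open Pool.Agent.H304.Z987 (mul_summable' tsum_dv' Gr_symm Gr_im Gr_le rz_sub' Gr_sub_z_le)
open Pool.Agent.H121.Z987

variable {ι : Type}

/-- the decoupling inequality at the energy `z` -/
def Dec (μ : Measure ℝ) (lam s c : ℝ) (z : ℂ) : Prop :=
  ∀ β : ℂ, β.im ≠ 0 →
    ENNReal.ofReal c * ∫⁻ v : ℝ, ENNReal.ofReal (‖(v : ℂ) - β‖ ^ (-s)) ∂μ ≤
      ∫⁻ v : ℝ, ENNReal.ofReal (‖(v : ℂ) - z / (lam : ℂ)‖ ^ s * ‖(v : ℂ) - β‖ ^ (-s)) ∂μ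

/-- Graf's bound -/
def Gra (μ : Measure ℝ) (lam s C : ℝ) : Prop :=
  ∀ (a g : ℂ) (ε : ℝ), 0 < ε → ε ≤ 1 → 0 < a.im → ε * ‖g‖ ^ 2 ≤ a.im → ε * ‖a‖ ^ 2 ≤ a.im →
    ∫⁻ v : ℝ, ENNReal.ofReal (ε * ‖g / (1 + (lam : ℂ) * (v : ℂ) * a)‖ ^ 2) ∂μ ≤
      ENNReal.ofReal C *
        ∫⁻ v : ℝ, ENNReal.ofReal (‖g / (1 + (lam : ℂ) * (v : ℂ) * a)‖ ^ s) ∂μ

open Classical in
/-- the decoupling inequality for Green functions -/
theorem dec_grW (T : LL ι →L[ℂ] LL ι) (hT : Rs T) (lam : ℝ) (hlam : 0 < lam) (s c : ℝ)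
    (hs : 0 < s) (μ : Measure ℝ) (hμ : ∀ᵐ v ∂μ, |v| ≤ 1)
    (ω : ι → ℝ) (z : ℂ) (hz : 0 < z.im) (hd : Dec μ lam s c z) (x y : ι) :
    ENNReal.ofReal (c * lam ^ s) *
      ∫⁻ v : ℝ, ‖Gr (HH T lam (Function.update ω x v)) z x y‖ₑ ^ s ∂μ ≤
    ∫⁻ v : ℝ, ‖((lam * v : ℝ) : ℂ) - z‖ₑ ^ s *
      ‖Gr (HH T lam (Function.update ω x v)) z x y‖ₑ ^ s ∂μ := by
  obtain ⟨a, ha⟩ : ∃ a, a = Gr (HH T lam (Function.update ω x 0)) z x x := ⟨_, rfl⟩
  obtain ⟨g, hg⟩ : ∃ g, g = Gr (HH T lam (Function.update ω x 0)) z x y := ⟨_, rfl⟩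
  have ha0 : 0 < a.im := by rw [ha]; exact Gr_im_pos _ (HH_rs T hT lam _) z hz x
  have hane : a ≠ 0 := by
    intro h
    rw [h] at ha0
    simp at ha0
  have han : 0 < ‖a‖ := norm_pos_iff.2 hane
  have hlc : (lam : ℂ) ≠ 0 := by exact_mod_cast hlam.ne'
  obtain ⟨β, hβ⟩ : ∃ β : ℂ, β = -1 / ((lam : ℂ) * a) := ⟨_, rfl⟩
  obtain ⟨α, hα⟩ : ∃ α : ℂ, α = z / (lam : ℂ) := ⟨_, rfl⟩
  obtain ⟨k, hk⟩ : ∃ k : ℝ, k = ‖g‖ / (lam * ‖a‖) := ⟨_, rfl⟩
  have hk0 : 0 ≤ k := by rw [hk]; positivity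
  have hβi : β.im ≠ 0 := by
    intro h
    have h1 : β * ((lam : ℂ) * a) = -1 := by
      rw [hβ]
      field_simp
    have h2 : (β : ℂ) = (β.re : ℂ) := by
      apply Complex.ext
      · simp
      · simp [h]
    rw [h2] at h1
    have h3 := congrArg Complex.im h1
    simp only [Complex.mul_im, Complex.ofReal_re, Complex.ofReal_im, zero_mul, add_zero,
      Complex.mul_re, sub_zero, Complex.neg_im, Complex.one_im, neg_zero] at h3
    have h4 : β.re = 0 := by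
      rcases mul_eq_zero.1 h3 with h4 | h4
      · exact h4
      · exact absurd h4 (mul_pos hlam ha0).ne'
    rw [h4] at h1
    simp at h1
  -- the absolute values
  have e1 : ∀ v : ℝ, ‖g / (1 + (lam : ℂ) * (v : ℂ) * a)‖ = k * ‖(v : ℂ) - β‖⁻¹ := by
    intro v
    have h1 : 1 + (lam : ℂ) * (v : ℂ) * a = (lam : ℂ) * a * ((v : ℂ) - β) := by
      rw [hβ]
      field_simp
      ring
    rw [h1, norm_div, norm_mul, norm_mul, Complex.norm_real, Real.norm_of_nonneg hlam.le, hk,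
      div_mul_eq_div_div, div_eq_mul_inv]
  have e2 : ∀ v : ℝ, ‖((lam * v : ℝ) : ℂ) - z‖ = lam * ‖(v : ℂ) - α‖ := by
    intro v
    have h1 : ((lam * v : ℝ) : ℂ) - z = (lam : ℂ) * ((v : ℂ) - α) := by
      rw [hα]
      push_cast
      field_simp
    rw [h1, norm_mul, Complex.norm_real, Real.norm_of_nonneg hlam.le]
  have e3 : ∀ v : ℝ, (k * ‖(v : ℂ) - β‖⁻¹) ^ s = k ^ s * ‖(v : ℂ) - β‖ ^ (-s) := by
    intro v
    rw [Real.mul_rpow hk0 (by positivity), Real.inv_rpow (norm_nonneg _),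
      ← Real.rpow_neg (norm_nonneg _)]
  have i1 : ∫⁻ v : ℝ, ‖Gr (HH T lam (Function.update ω x v)) z x y‖ₑ ^ s ∂μ =
      ENNReal.ofReal (k ^ s) * ∫⁻ v : ℝ, ENNReal.ofReal (‖(v : ℂ) - β‖ ^ (-s)) ∂μ := by
    rw [← lintegral_const_mul' _ _ ENNReal.ofReal_ne_top]
    refine lintegral_congr_ae ?_
    filter_upwards [hμ] with v hv
    rw [site T hT lam ω z hz x y v hv, ← ha, ← hg, enorm_rpow _ s hs.le, e1, e3,
      ENNReal.ofReal_mul (by positivity)]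
  have i2 : ∫⁻ v : ℝ, ‖((lam * v : ℝ) : ℂ) - z‖ₑ ^ s *
      ‖Gr (HH T lam (Function.update ω x v)) z x y‖ₑ ^ s ∂μ =
      ENNReal.ofReal (lam ^ s * k ^ s) *
        ∫⁻ v : ℝ, ENNReal.ofReal (‖(v : ℂ) - α‖ ^ s * ‖(v : ℂ) - β‖ ^ (-s)) ∂μ := by
    rw [← lintegral_const_mul' _ _ ENNReal.ofReal_ne_top]
    refine lintegral_congr_ae ?_
    filter_upwards [hμ] with v hv
    rw [site T hT lam ω z hz x y v hv, ← ha, ← hg, enorm_rpow _ s hs.le, enorm_rpow _ s hs.le,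
      e1, e2, e3, ← ENNReal.ofReal_mul (by positivity), ← ENNReal.ofReal_mul (by positivity),
      Real.mul_rpow hlam.le (norm_nonneg _)]
    congr 1
    ring
  rw [i1, i2]
  calc ENNReal.ofReal (c * lam ^ s) *
        (ENNReal.ofReal (k ^ s) * ∫⁻ v : ℝ, ENNReal.ofReal (‖(v : ℂ) - β‖ ^ (-s)) ∂μ) =
      ENNReal.ofReal (lam ^ s * k ^ s) *
        (ENNReal.ofReal c * ∫⁻ v : ℝ, ENNReal.ofReal (‖(v : ℂ) - β‖ ^ (-s)) ∂μ) := by
        rw [mul_comm c, ENNReal.ofReal_mul (by positivity), ENNReal.ofReal_mul (by positivity)]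
        ring
    _ ≤ _ := by
        gcongr
        rw [hα]
        exact hd β hβi

section prob

variable [Countable ι]

open Classical in
/-- the inequality for the fractional moments -/
theorem fm_ineqW (T : LL ι →L[ℂ] LL ι) (hT : Rs T) (lam : ℝ) (hlam : 0 < lam) (s c : ℝ)
    (hs : 0 < s) (hs1 : s ≤ 1) (μ : Measure ℝ) [IsProbabilityMeasure μ] (hμ : ∀ᵐ v ∂μ, |v| ≤ 1)
    (y : ι) (z : ℂ) (hz : 0 < z.im) (hd : Dec μ lam s c z) (x : ι) :
    ENNReal.ofReal (c * lam ^ s) * fm T lam s μ y z x ≤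
      (if x = y then 1 else 0) + ∑' u, ‖T (dv x) u‖ₑ ^ s * fm T lam s μ y z u := by
  have hm : ∀ u, Measurable fun ω : ι → ℝ => ‖Gr (HH T lam ω) z u y‖ₑ ^ s := fun u =>
    ((Gr_meas1 T hT lam z u y hz.ne').enorm).pow_const s
  have hm2 : Measurable fun ω : ι → ℝ =>
      ‖((lam * ω x : ℝ) : ℂ) - z‖ₑ ^ s * ‖Gr (HH T lam ω) z x y‖ₑ ^ s := by
    refine Measurable.mul ?_ (hm x)
    refine Measurable.pow_const (Measurable.enorm ?_) s
    have h1 : Measurable fun ω : ι → ℝ => ω x := measurable_pi_apply x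
    exact (Complex.measurable_ofReal.comp (h1.const_mul lam)).sub_const z
  have hb : ∀ᵐ ω ∂(Measure.infinitePi fun _ : ι => μ), |ω x| ≤ 1 := by
    have h1 := (measurePreserving_eval_infinitePi (fun _ : ι => μ) x).quasiMeasurePreserving
    exact h1.ae hμ
  calc ENNReal.ofReal (c * lam ^ s) * fm T lam s μ y z x =
        ∫⁻ ω, ENNReal.ofReal (c * lam ^ s) *
          ∫⁻ v, ‖Gr (HH T lam (Function.update ω x v)) z x y‖ₑ ^ s ∂μ
          ∂(Measure.infinitePi fun _ : ι => μ) := by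
        unfold fm
        rw [lint_resample μ x _ (hm x), lintegral_const_mul' _ _ ENNReal.ofReal_ne_top]
    _ ≤ ∫⁻ ω, ∫⁻ v, ‖((lam * v : ℝ) : ℂ) - z‖ₑ ^ s *
          ‖Gr (HH T lam (Function.update ω x v)) z x y‖ₑ ^ s ∂μ
          ∂(Measure.infinitePi fun _ : ι => μ) := by
        refine lintegral_mono fun ω => ?_
        exact dec_grW T hT lam hlam s c hs μ hμ ω z hz hd x y
    _ = ∫⁻ ω, ‖((lam * ω x : ℝ) : ℂ) - z‖ₑ ^ s * ‖Gr (HH T lam ω) z x y‖ₑ ^ s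
          ∂(Measure.infinitePi fun _ : ι => μ) := by
        rw [lint_resample μ x _ hm2]
        simp only [Function.update_self]
    _ ≤ ∫⁻ ω, ((‖(dv y : LL ι) x‖ₑ) ^ s +
          ∑' u, ‖T (dv x) u‖ₑ ^ s * ‖Gr (HH T lam ω) z u y‖ₑ ^ s)
          ∂(Measure.infinitePi fun _ : ι => μ) := by
        refine lintegral_mono_ae ?_
        filter_upwards [hb] with ω hω
        exact eqn T hT lam ω z hz.ne' s hs hs1 x y hω
    _ = _ := by
        rw [lintegral_add_left measurable_const, lintegral_const, measure_univ, mul_one,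
          lintegral_tsum fun u => ((hm u).const_mul _).aemeasurable]
        congr 1
        · by_cases h : x = y
          · subst h
            rw [dv_self, if_pos rfl]
            simp
          · rw [dv_ne h, if_neg h]
            simp [hs]
        · refine tsum_congr fun u => ?_
          rw [lintegral_const_mul _ (hm u)]
          rfl

/-- the normalized kernel -/
noncomputable def kerN (T : LL ι →L[ℂ] LL ι) (s L : ℝ) (x u : ι) : ℝ≥0∞ :=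
  (ENNReal.ofReal L)⁻¹ * ‖T (dv x) u‖ₑ ^ s

theorem kerN_row (T : LL ι →L[ℂ] LL ι) (hT : Rs T) (s L S : ℝ) (hs : 0 < s) (hL : 0 < L)
    (hTs : ∀ x, (Summable fun y => ‖T (dv y) x‖ ^ s) ∧ ∑' y, ‖T (dv y) x‖ ^ s ≤ S) :
    (∀ x, ∑' u, kerN T s L x u ≤ ENNReal.ofReal (S / L)) ∧
      ∀ u, ∑' x, kerN T s L x u ≤ ENNReal.ofReal (S / L) := by
  have hrow : ∀ x, ∑' u, ‖T (dv u) x‖ₑ ^ s ≤ ENNReal.ofReal S := by
    intro x
    have e1 : ∀ u, ‖T (dv u) x‖ₑ ^ s = ENNReal.ofReal (‖T (dv u) x‖ ^ s) := fun u =>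
      enorm_rpow _ s hs.le
    simp only [e1]
    rw [← ENNReal.ofReal_tsum_of_nonneg (fun u => by positivity) (hTs x).1]
    exact ENNReal.ofReal_le_ofReal (hTs x).2
  have e2 : ENNReal.ofReal (S / L) = (ENNReal.ofReal L)⁻¹ * ENNReal.ofReal S := by
    rw [← ENNReal.ofReal_inv_of_pos hL, ← ENNReal.ofReal_mul (by positivity)]
    congr 1
    ring
  unfold kerN
  constructor
  · intro x
    rw [ENNReal.tsum_mul_left, e2]
    gcongr
    refine le_trans (le_of_eq ?_) (hrow x)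
    exact tsum_congr fun u => by rw [ker_symm T hT x u]
  · intro u
    rw [ENNReal.tsum_mul_left, e2]
    gcongr
    exact hrow u

open Classical in
theorem norm_ineq (T : LL ι →L[ℂ] LL ι) (s L : ℝ) (hL : 0 < L) (y : ι) (f : ι → ℝ≥0∞)
    (h : ∀ x, ENNReal.ofReal L * f x ≤
      (if x = y then 1 else 0) + ∑' u, ‖T (dv x) u‖ₑ ^ s * f u) (x : ι) :
    f x ≤ (ENNReal.ofReal L)⁻¹ * (if x = y then 1 else 0) + ∑' u, kerN T s L x u * f u := by
  have h1 := h x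
  have h2 : f x = (ENNReal.ofReal L)⁻¹ * (ENNReal.ofReal L * f x) := by
    rw [← mul_assoc, ENNReal.inv_mul_cancel (ENNReal.ofReal_pos.2 hL).ne' ENNReal.ofReal_ne_top,
      one_mul]
  rw [h2]
  calc (ENNReal.ofReal L)⁻¹ * (ENNReal.ofReal L * f x) ≤
        (ENNReal.ofReal L)⁻¹ * ((if x = y then 1 else 0) + ∑' u, ‖T (dv x) u‖ₑ ^ s * f u) := by
        gcongr
    _ = _ := by
        rw [mul_add]
        congr 1
        rw [← ENNReal.tsum_mul_left]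
        exact tsum_congr fun u => (mul_assoc _ _ _).symm

/-- the supremum of the fractional moments in the window -/
noncomputable def fs (I : Set ℝ) (T : LL ι →L[ℂ] LL ι) (lam s : ℝ) (μ : Measure ℝ)
    [IsProbabilityMeasure μ] (y : ι) (x : ι) : ℝ≥0∞ :=
  ⨆ p : I × ℕ, fm T lam s μ y (zk (p.1 : ℝ) p.2) x

theorem fs_sumW (I : Set ℝ) (T : LL ι →L[ℂ] LL ι) (hT : Rs T) (lam : ℝ) (hlam : 0 < lam)
    (s c S γ : ℝ) (hs : 0 < s) (hs1 : s ≤ 1) (hγ : 0 ≤ γ) (hL : 0 < c * lam ^ s)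
    (hc : Real.exp γ * S < c * lam ^ s) (hS : 0 ≤ S)
    (hTs : ∀ x, (Summable fun y => ‖T (dv y) x‖ ^ s) ∧ ∑' y, ‖T (dv y) x‖ ^ s ≤ S)
    (r : ι → ℕ) (hr : ∀ x y, T (dv y) x ≠ 0 → r x ≤ r y + 1)
    (μ : Measure ℝ) [IsProbabilityMeasure μ] (hμ : ∀ᵐ v ∂μ, |v| ≤ 1)
    (hd : ∀ z : ℂ, 0 < z.im → z.re ∈ I → Dec μ lam s c z)
    (y : ι) : ∑' x, ENNReal.ofReal (Real.exp (γ * r x)) * fs I T lam s μ y x ≠ ∞ := by
  classical
  obtain ⟨L, hLdef⟩ : ∃ L, L = c * lam ^ s := ⟨_, rfl⟩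
  rw [← hLdef] at hL hc
  have hexp : (1 : ℝ) ≤ Real.exp γ := Real.one_le_exp hγ
  have hSL : S < L := by nlinarith
  obtain ⟨h1, h2⟩ := kerN_row T hT s L S hs hL hTs
  have hθ : ENNReal.ofReal (S / L) < 1 := by
    rw [← ENNReal.ofReal_one]
    apply (ENNReal.ofReal_lt_ofReal_iff (by norm_num)).2
    rwa [div_lt_one hL]
  have hθ' : ENNReal.ofReal (Real.exp γ * S / L) < 1 := by
    rw [← ENNReal.ofReal_one]
    apply (ENNReal.ofReal_lt_ofReal_iff (by norm_num)).2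
    rwa [div_lt_one hL]
  have hLi : (ENNReal.ofReal L)⁻¹ ≠ ∞ := ENNReal.inv_ne_top.2 (ENNReal.ofReal_pos.2 hL).ne'
  have hgs : ∑' x, (ENNReal.ofReal L)⁻¹ * (if x = y then (1 : ℝ≥0∞) else 0) ≤
      (ENNReal.ofReal L)⁻¹ := by
    rw [ENNReal.tsum_mul_left, tsum_ite_eq, mul_one]
  obtain ⟨B, hB⟩ : ∃ B, B = (ENNReal.ofReal L)⁻¹ * (1 - ENNReal.ofReal (S / L))⁻¹ := ⟨_, rfl⟩
  have hBtop : B ≠ ∞ := by
    rw [hB]
    exact ENNReal.mul_ne_top hLi (ENNReal.inv_ne_top.2 (tsub_pos_of_lt hθ).ne')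
  have hzim : ∀ p : I × ℕ, 0 < (zk (p.1 : ℝ) p.2).im := fun p => by
    rw [Pool.Agent.H121.Z987.zk_im]; exact ep_pos _
  have hzre : ∀ p : I × ℕ, (zk (p.1 : ℝ) p.2).re ∈ I := fun p => by
    have : (zk (p.1 : ℝ) p.2).re = (p.1 : ℝ) := by
      rw [zk_eq]; simp
    rw [this]
    exact p.1.2
  have h3 : ∀ (p : I × ℕ) (x : ι), fm T lam s μ y (zk (p.1 : ℝ) p.2) x ≤ B := by
    intro p x
    have h4 := iterT (kerN T s L) _ hθ h1 h2 (fm T lam s μ y (zk (p.1 : ℝ) p.2)) _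
      ENNReal.ofReal_ne_top (fm_le T hT lam s hs μ y _ (hzim p)) (ENNReal.ofReal L)⁻¹ _ hgs
      (norm_ineq T s L hL y _ (by
        intro x
        rw [hLdef]
        exact fm_ineqW T hT lam hlam s c hs hs1 μ hμ y _ (hzim p) (hd _ (hzim p) (hzre p)) x))
    rw [hB]
    exact (ENNReal.le_tsum x).trans h4
  have h5 : ∀ x, fs I T lam s μ y x ≤ B := fun x => iSup_le fun p => h3 p x
  have h6 : ∀ x, ENNReal.ofReal L * fs I T lam s μ y x ≤
      (if x = y then 1 else 0) + ∑' u, ‖T (dv x) u‖ₑ ^ s * fs I T lam s μ y u := by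
    intro x
    unfold fs
    rw [ENNReal.mul_iSup]
    refine iSup_le fun p => ?_
    rw [hLdef]
    refine (fm_ineqW T hT lam hlam s c hs hs1 μ hμ y _ (hzim p) (hd _ (hzim p) (hzre p)) x).trans ?_
    gcongr with u
    exact le_iSup (fun p : I × ℕ => fm T lam s μ y (zk (p.1 : ℝ) p.2) u) p
  have h7 := norm_ineq T s L hL y _ h6
  have h8 := iterT (kerN T s L) _ hθ h1 h2 (fs I T lam s μ y) B hBtop h5 (ENNReal.ofReal L)⁻¹ _
    hgs h7
  have h9 : ∑' x, fs I T lam s μ y x ≠ ∞ := ne_top_of_le_ne_top hBtop (by rw [hB]; exact h8)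
  refine iterE (kerN T s L) _ hθ' γ hγ r ?_ ?_ (fs I T lam s μ y) h9 y (ENNReal.ofReal L)⁻¹ hLi
    _ ?_ ?_ h7
  · intro x u hxu
    refine hr x u fun h => hxu ?_
    unfold kerN
    rw [ker_symm T hT x u, h]
    simp [hs]
  · intro u
    calc ENNReal.ofReal (Real.exp γ) * ∑' x, kerN T s L x u ≤
          ENNReal.ofReal (Real.exp γ) * ENNReal.ofReal (S / L) := by
          gcongr
          exact h2 u
      _ = _ := by
          rw [← ENNReal.ofReal_mul (Real.exp_pos γ).le]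
          congr 1
          ring
  · intro x hx
    rw [if_neg hx, mul_zero]
  · rw [if_pos rfl, mul_one]

end prob

end Pool.Agent.H121.ME
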