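import Pool.Agent.H121.ME.Iface

/-! Iteration lemmas. -/

set_option autoImplicit false

open scoped BigOperators InnerProductSpace Topology ENNReal
open Filter MeasureTheory

namespace Pool.Agent.H121.ME

theorem iterT {ι : Type} (K : ι → ι → ℝ≥0∞) (θ : ℝ≥0∞) (hθ : θ < 1) (hr : ∀ x, ∑' u, K x u ≤ θ)
    (hc : ∀ u, ∑' x, K x u ≤ θ) (f : ι → ℝ≥0∞) (M : ℝ≥0∞) (hM : M ≠ ∞) (hf : ∀ x, f x ≤ M)
    (A : ℝ≥0∞) (g : ι → ℝ≥0∞) (hg : ∑' x, g x ≤ A) (h : ∀ x, f x ≤ g x + ∑' u, K x u * f u) :
    ∑' x, f x ≤ A * (1 - θ)⁻¹ := by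
  have key : ∀ n : ℕ, ∀ (q : ι → ℝ≥0∞) (b : ℝ≥0∞), (∀ x, q x ≤ b) →
      ∑' x, q x * f x ≤ A * b * ∑ i ∈ Finset.range n, θ ^ i + θ ^ n * (M * ∑' x, q x) := by
    intro n
    induction n with
    | zero =>
      intro q b hq
      rw [pow_zero, one_mul, ← ENNReal.tsum_mul_left]
      refine le_trans (ENNReal.tsum_le_tsum fun x => ?_) le_add_self
      rw [mul_comm M]
      gcongr
      exact hf x
    | succ n ih =>
      intro q b hq
      obtain ⟨q', hq'⟩ : ∃ q' : ι → ℝ≥0∞, q' = fun u => ∑' x, q x * K x u := ⟨_, rfl⟩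
      have h1 : ∀ u, q' u ≤ b * θ := by
        intro u
        rw [hq']
        calc ∑' x, q x * K x u ≤ ∑' x, b * K x u := by
              refine ENNReal.tsum_le_tsum fun x => ?_
              gcongr
              exact hq x
          _ = b * ∑' x, K x u := ENNReal.tsum_mul_left
          _ ≤ b * θ := by
              gcongr
              exact hc u
      have h2 : ∑' u, q' u ≤ θ * ∑' x, q x := by
        rw [hq']
        calc ∑' u, ∑' x, q x * K x u = ∑' x, ∑' u, q x * K x u := ENNReal.tsum_comm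
          _ = ∑' x, q x * ∑' u, K x u := by
              refine tsum_congr fun x => ?_
              exact ENNReal.tsum_mul_left
          _ ≤ ∑' x, q x * θ := by
              refine ENNReal.tsum_le_tsum fun x => ?_
              gcongr
              exact hr x
          _ = θ * ∑' x, q x := by
              rw [ENNReal.tsum_mul_right, mul_comm]
      have h3 := ih q' (b * θ) h1
      have h4 : ∑' x, q x * f x ≤ A * b + ∑' u, q' u * f u := by
        calc ∑' x, q x * f x ≤ ∑' x, (g x * b + q x * ∑' u, K x u * f u) := by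
              refine ENNReal.tsum_le_tsum fun x => ?_
              calc q x * f x ≤ q x * (g x + ∑' u, K x u * f u) := by
                    gcongr
                    exact h x
                _ = q x * g x + q x * ∑' u, K x u * f u := mul_add _ _ _
                _ ≤ b * g x + q x * ∑' u, K x u * f u := by
                    gcongr
                    exact hq x
                _ = _ := by rw [mul_comm b]
          _ = (∑' x, g x) * b + ∑' x, q x * ∑' u, K x u * f u := by
              rw [ENNReal.tsum_add, ENNReal.tsum_mul_right]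
          _ ≤ A * b + ∑' u, q' u * f u := by
              refine add_le_add (by gcongr) (le_of_eq ?_)
              have e1 : ∀ x, q x * ∑' u, K x u * f u = ∑' u, q x * K x u * f u := by
                intro x
                rw [← ENNReal.tsum_mul_left]
                exact tsum_congr fun u => (mul_assoc _ _ _).symm
              simp only [e1]
              rw [ENNReal.tsum_comm, hq']
              exact tsum_congr fun u => ENNReal.tsum_mul_right
      refine h4.trans ?_
      calc A * b + ∑' u, q' u * f u ≤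
            A * b + (A * (b * θ) * ∑ i ∈ Finset.range n, θ ^ i + θ ^ n * (M * (θ * ∑' x, q x))) := by
              gcongr
              exact h3.trans (by gcongr)
        _ = A * b * ∑ i ∈ Finset.range (n + 1), θ ^ i + θ ^ (n + 1) * (M * ∑' x, q x) := by
              rw [Finset.sum_range_succ', pow_zero]
              have e1 : ∑ i ∈ Finset.range n, θ ^ (i + 1) = θ * ∑ i ∈ Finset.range n, θ ^ i := by
                rw [Finset.mul_sum]
                exact Finset.sum_congr rfl fun i _ => by ring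
              rw [e1]
              ring
  rw [ENNReal.tsum_eq_iSup_sum]
  refine iSup_le fun F => ?_
  classical
  have h5 : ∀ n : ℕ, ∑ x ∈ F, f x ≤ A * (1 - θ)⁻¹ + θ ^ n * (M * F.card) := by
    intro n
    have h6 := key n (fun x => if x ∈ F then 1 else 0) 1 (fun x => by
      split_ifs <;> simp)
    have e1 : ∑' x, (if x ∈ F then (1 : ℝ≥0∞) else 0) * f x = ∑ x ∈ F, f x := by
      rw [tsum_eq_sum (s := F) (fun x hx => by rw [if_neg hx, zero_mul])]
      exact Finset.sum_congr rfl fun x hx => by rw [if_pos hx, one_mul]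
    have e2 : ∑' x, (if x ∈ F then (1 : ℝ≥0∞) else 0) = F.card := by
      rw [tsum_eq_sum (s := F) (fun x hx => by rw [if_neg hx])]
      rw [Finset.sum_congr rfl fun x hx => if_pos hx, Finset.sum_const, nsmul_eq_mul, mul_one]
    rw [e1, e2, mul_one] at h6
    refine h6.trans ?_
    gcongr
    rw [← ENNReal.tsum_geometric]
    exact ENNReal.sum_le_tsum _
  have h7 : Tendsto (fun n : ℕ => A * (1 - θ)⁻¹ + θ ^ n * (M * F.card)) atTop
      (𝓝 (A * (1 - θ)⁻¹ + 0 * (M * F.card))) := by
    refine Tendsto.const_add _ ?_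
    refine ENNReal.Tendsto.mul_const ?_ (Or.inr (ENNReal.mul_ne_top hM (by simp)))
    exact ENNReal.tendsto_pow_atTop_nhds_zero_of_lt_one hθ
  rw [zero_mul, add_zero] at h7
  exact ge_of_tendsto' h7 h5

/-- bounded weights -/
theorem iterW {ι : Type} (K : ι → ι → ℝ≥0∞) (θ : ℝ≥0∞) (hθ : θ < 1) (ρ : ι → ℝ≥0∞) (B : ℝ≥0∞)
    (hB : B ≠ ∞) (hρ : ∀ x, ρ x ≤ B)
    (hc : ∀ u, ∑' x, ρ x * K x u ≤ θ * ρ u) (f : ι → ℝ≥0∞) (hf : ∑' x, f x ≠ ∞)
    (g : ι → ℝ≥0∞) (h : ∀ x, f x ≤ g x + ∑' u, K x u * f u) :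
    ∑' x, ρ x * f x ≤ (∑' x, ρ x * g x) * (1 - θ)⁻¹ := by
  have h0 : ∑' x, ρ x * f x ≠ ∞ := by
    refine ne_top_of_le_ne_top (ENNReal.mul_ne_top hB hf) ?_
    rw [← ENNReal.tsum_mul_left]
    exact ENNReal.tsum_le_tsum fun x => by gcongr; exact hρ x
  obtain ⟨a, ha⟩ : ∃ a, a = ∑' x, ρ x * f x := ⟨_, rfl⟩
  have h1 : a ≤ (∑' x, ρ x * g x) + θ * a := by
    rw [ha]
    calc ∑' x, ρ x * f x ≤ ∑' x, (ρ x * g x + ρ x * ∑' u, K x u * f u) := by
          refine ENNReal.tsum_le_tsum fun x => ?_
          rw [← mul_add]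
          gcongr
          exact h x
      _ = (∑' x, ρ x * g x) + ∑' u, (∑' x, ρ x * K x u) * f u := by
          rw [ENNReal.tsum_add]
          congr 1
          have e1 : ∀ x, ρ x * ∑' u, K x u * f u = ∑' u, ρ x * K x u * f u := by
            intro x
            rw [← ENNReal.tsum_mul_left]
            exact tsum_congr fun u => (mul_assoc _ _ _).symm
          simp only [e1]
          rw [ENNReal.tsum_comm]
          exact tsum_congr fun u => ENNReal.tsum_mul_right
      _ ≤ (∑' x, ρ x * g x) + ∑' u, θ * ρ u * f u := by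
          gcongr with u
          exact hc u
      _ = _ := by
          congr 1
          rw [← ENNReal.tsum_mul_left]
          exact tsum_congr fun u => mul_assoc _ _ _
  rw [← ha] at h0 ⊢
  have hθ' : θ ≠ ∞ := (hθ.trans ENNReal.one_lt_top).ne
  have h2 : (1 - θ) * a ≤ ∑' x, ρ x * g x := by
    rw [ENNReal.sub_mul (fun _ _ => h0), one_mul]
    exact tsub_le_iff_right.2 h1
  have h3 : 1 - θ ≠ 0 := (tsub_pos_of_lt hθ).ne'
  have h4 : 1 - θ ≠ ∞ := (lt_of_le_of_lt tsub_le_self ENNReal.one_lt_top).ne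
  calc a = (1 - θ) * a * (1 - θ)⁻¹ := by
        rw [mul_comm (1 - θ) a, mul_assoc, ENNReal.mul_inv_cancel h3 h4, mul_one]
    _ ≤ _ := by gcongr

/-- exponential weights -/
theorem iterE {ι : Type} (K : ι → ι → ℝ≥0∞) (θ : ℝ≥0∞) (hθ : θ < 1) (γ : ℝ) (hγ : 0 ≤ γ)
    (r : ι → ℕ) (hK : ∀ x u, K x u ≠ 0 → r x ≤ r u + 1)
    (hc : ∀ u, ENNReal.ofReal (Real.exp γ) * ∑' x, K x u ≤ θ)
    (f : ι → ℝ≥0∞) (hf : ∑' x, f x ≠ ∞) (y : ι) (A : ℝ≥0∞) (hA : A ≠ ∞)
    (g : ι → ℝ≥0∞) (hg : ∀ x, x ≠ y → g x = 0) (hgy : g y ≤ A)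
    (h : ∀ x, f x ≤ g x + ∑' u, K x u * f u) :
    ∑' x, ENNReal.ofReal (Real.exp (γ * r x)) * f x ≠ ∞ := by
  obtain ⟨C, hC⟩ : ∃ C, C = ENNReal.ofReal (Real.exp (γ * r y)) * A * (1 - θ)⁻¹ := ⟨_, rfl⟩
  have hCt : C ≠ ∞ := by
    rw [hC]
    refine ENNReal.mul_ne_top (ENNReal.mul_ne_top ENNReal.ofReal_ne_top hA) ?_
    exact ENNReal.inv_ne_top.2 (tsub_pos_of_lt hθ).ne'
  have key : ∀ N : ℕ, ∑' x, ENNReal.ofReal (Real.exp (γ * ((min (r x) N : ℕ) : ℝ))) * f x ≤ C := by
    intro N
    have h1 := iterW K θ hθ (fun x => ENNReal.ofReal (Real.exp (γ * ((min (r x) N : ℕ) : ℝ))))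
      (ENNReal.ofReal (Real.exp (γ * N))) ENNReal.ofReal_ne_top (fun x => by
        apply ENNReal.ofReal_le_ofReal
        apply Real.exp_le_exp.2
        apply mul_le_mul_of_nonneg_left _ hγ
        exact_mod_cast min_le_right (r x) N) (fun u => by
        calc ∑' x, ENNReal.ofReal (Real.exp (γ * ((min (r x) N : ℕ) : ℝ))) * K x u ≤
              ∑' x, (ENNReal.ofReal (Real.exp γ) *
                ENNReal.ofReal (Real.exp (γ * ((min (r u) N : ℕ) : ℝ)))) * K x u := by
              refine ENNReal.tsum_le_tsum fun x => ?_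
              by_cases hx : K x u = 0
              · rw [hx]; simp
              · have h2 := hK x u hx
                gcongr
                rw [← ENNReal.ofReal_mul (Real.exp_pos _).le, ← Real.exp_add]
                apply ENNReal.ofReal_le_ofReal
                apply Real.exp_le_exp.2
                have h3 : (((min (r x) N : ℕ) : ℝ)) ≤ ((min (r u) N : ℕ) : ℝ) + 1 := by
                  have h4 : min (r x) N ≤ min (r u) N + 1 := by omega
                  exact_mod_cast h4
                nlinarith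
          _ = ENNReal.ofReal (Real.exp γ) * (∑' x, K x u) *
                ENNReal.ofReal (Real.exp (γ * ((min (r u) N : ℕ) : ℝ))) := by
              rw [ENNReal.tsum_mul_left]
              ring
          _ ≤ _ := by
              gcongr
              exact hc u) f hf g h
    refine h1.trans ?_
    rw [hC]
    gcongr
    rw [tsum_eq_single y (fun x hx => by rw [hg x hx, mul_zero])]
    gcongr
    exact_mod_cast min_le_left (r y) N
  refine ne_top_of_le_ne_top hCt ?_
  rw [ENNReal.tsum_eq_iSup_sum]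
  refine iSup_le fun F => ?_
  obtain ⟨N, hN⟩ : ∃ N : ℕ, ∀ x ∈ F, r x ≤ N := ⟨F.sup r, fun x hx => Finset.le_sup hx⟩
  calc ∑ x ∈ F, ENNReal.ofReal (Real.exp (γ * r x)) * f x =
        ∑ x ∈ F, ENNReal.ofReal (Real.exp (γ * ((min (r x) N : ℕ) : ℝ))) * f x := by
        refine Finset.sum_congr rfl fun x hx => ?_
        rw [min_eq_left (hN x hx)]
    _ ≤ _ := (ENNReal.sum_le_tsum F).trans (key N)

end Pool.Agent.H121.ME
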