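import Pool.Agent.H987.Z.Main
import Pool.Agent.H383.Z987.Word
import Pool.Agent.H199.Z987.Alg
import Pool.Agent.H284.Z987.Hutri
import Pool.Agent.H271.Z987.Lln
import Pool.Agent.H628.Z987.Star
import Pool.Agent.H784.Z987.Mom
import Pool.Agent.H230.Z987.Ac
import Pool.Agent.H194.Z987.Conv
import Pool.Agent.H304.Z987.Green
import Pool.Agent.H30.Z987.Tree
import Pool.Agent.H123.Z987.Cover
import Pool.Agent.H282.Z987.Split
import Pool.Agent.H539.Z987.Boot
import Pool.Agent.H284.Z987.Close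
import Pool.Agent.H582.Z987.Rst
import Pool.Agent.H650.Z987.Free0
import Pool.Agent.H734.Z987.Free1
import Pool.Agent.H548.Z987.Free2
import Pool.Agent.H383.Z987.Free3
import Pool.Agent.H190.Z987.Wt
import Pool.Agent.H284.Z987.Lim
import Pool.Agent.H619.Z987.Lay
import Pool.Agent.H784.Z987.Hop
import Pool.Agent.H121.Z987.Loc

/-! The theorem of project Z of helper987 without hypotheses (weak disorder part). -/

set_option autoImplicit false

open scoped BigOperators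
open MeasureTheory

namespace Pool.Agent.H121.ME

open Pool.Agent.H987.Z
open Pool.Agent.Y662.TR (dv)

theorem layers (d : ℕ) (hd : 1 ≤ d) (α β : ℝ) (hα : 0 < α) (hαβ : α ≤ β) (hβ : β < 4 * d)
    (h2 : d = 2 → β < 4 ∨ 4 < α) (ε : ℝ) (hε : 0 < ε) :
    ∃ (F : Type) (_ : Group F) (_ : Countable F) (φ : Multiplicative (Fin d → ℤ) →* MulAut F)
      (c : F → ℝ),
      (∀ S : Finset F, ((Subgroup.closure (S : Set F) : Subgroup F) : Set F).Finite) ∧
      (∀ q : F, (Set.range fun x => φ x q).Finite) ∧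
      (∀ q, 0 ≤ c q) ∧ (∀ q, c q⁻¹ = c q) ∧ (∀ p : ℝ, 0 < p → Summable fun q => c q ^ p) ∧
      ∑' q, c q ≤ ε ∧
      (∃ lam0 : ℝ, 0 < lam0 ∧ ∀ (μ : Measure ℝ) [IsProbabilityMeasure μ], (∀ᵐ s ∂μ, |s| ≤ 1) →
        ∀ lam : ℝ, 0 < lam → lam ≤ lam0 →
        ∀ᵐ ω ∂(Measure.infinitePi fun _ : Site d F => μ),
          (∀ f : Site d F → ℂ, SqS f → ∃ m : Measure ℝ, IsSp (Ham φ c lam ω) f m) ∧
          (∀ (f : Site d F → ℂ) (m : Measure ℝ), SqS f → IsSp (Ham φ c lam ω) f m →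
            ∀ A : Set ℝ, A ⊆ Set.Icc α β → volume A = 0 → m A = 0) ∧
          (∀ (p : Site d F) (m : Measure ℝ), IsSp (Ham φ c lam ω) (fun x => dv p x) m →
            ∀ A : Set ℝ, A ⊆ Set.Icc α β → MeasurableSet A → m A = 0 → volume A = 0)) := by
  have hc := Pool.Agent.H194.Z987.conv
  have hg := Pool.Agent.H304.Z987.green
  have ht := Pool.Agent.H30.Z987.tree hc
  have hr := Pool.Agent.H30.Z987.root hc hg ht
  have h1 := Pool.Agent.H284.Z987.hutri
  have hw := Pool.Agent.H190.Z987.wt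
  have hcv := Pool.Agent.H123.Z987.cover hc ht
  obtain ⟨F, iF, iC, φ, c, a1, a2, a3, a4, a5, a6, a7, -⟩ :=
    Pool.Agent.H987.Z.main_layers (Pool.Agent.H199.Z987.alg Pool.Agent.H383.Z987.word) hc hg
      (Pool.Agent.H539.Z987.boot h1 Pool.Agent.H271.Z987.lln Pool.Agent.H628.Z987.star hc hg ht hr
        Pool.Agent.H282.Z987.split)
      (Pool.Agent.H284.Z987.close hc hg ht hr)
      (Pool.Agent.H582.Z987.rst h1 hc hg ht Pool.Agent.H784.Z987.mom hcv)
      hw (Pool.Agent.H284.Z987.lim hc hg) (Pool.Agent.H650.Z987.free0 hc)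
      (Pool.Agent.H734.Z987.free1 hc hg) (Pool.Agent.H548.Z987.free2 hc hg)
      (Pool.Agent.H383.Z987.free3 hc hg) Pool.Agent.H230.Z987.ac
      (Pool.Agent.H619.Z987.lay hc hg hw) Pool.Agent.H121.Z987.loc Pool.Agent.H784.Z987.HopL.hop
      d hd α β hα hαβ hβ h2 ε hε
  exact ⟨F, iF, iC, φ, c, a1, a2, a3, a4, a5, a6, a7⟩

end Pool.Agent.H121.ME
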